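import Pool.Agent.Lib.MP_80aaf5_lc.PH.Sound

/-!
# Counting
-/

namespace ESY.PHI

open Classical

set_option linter.unusedSectionVars false

variable {I G Q U : Type} {P : U → Type}
variable [Fintype I] [Fintype G] [Fintype Q] [Fintype U] [∀ u, Fintype (P u)]
variable {S : Sys I G Q P}

noncomputable instance (γ : Crd I G U) : Fintype (Val I G Q P γ) :=
  match γ with
  | .inl _ => inferInstanceAs (Fintype Q)
  | .inr (.inl _) => inferInstanceAs (Fintype G)
  | .inr (.inr u) => inferInstanceAs (Fintype (P u))

/-- the number of labels -/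
noncomputable def cnt (S : Sys I G Q P) (ω : TA I G Q P) (v : I → Bool) (m : ℕ) (σ : St I U) : ℕ :=
  (Finset.univ.filter fun γ => lab S ω v m σ γ ≠ none).card

/-- the coordinates of the events of a step -/
noncomputable def evc (S : Sys I G Q P) (ω : TA I G Q P) (σ : St I U) : Finset (Crd I G U) :=
  (sev S (pa ω) σ).image crd

theorem cnt_succ (hS : RkOk S) (ω : TA I G Q P) (v : I → Bool) (m : ℕ) (σ : St I U) :
    cnt S ω v (m + 1) σ = (evc S ω σ).card + cnt S ω v m (stp S ω v σ) := by
  unfold cnt
  rw [← Finset.card_union_of_disjoint]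
  · congr 1
    ext γ
    simp only [Finset.mem_filter, Finset.mem_univ, true_and, Finset.mem_union, evc,
      Finset.mem_image]
    by_cases h : ∃ ℓ ∈ sev S (pa ω) σ, crd ℓ = γ
    · simp only [h, true_or, iff_true]
      obtain ⟨ℓ, h1, rfl⟩ := h
      rw [lab_pos h1]
      simp
    · simp only [h, false_or]
      rw [lab_neg h]
  · rw [Finset.disjoint_left]
    intro γ h1 h2
    obtain ⟨ℓ, h3, rfl⟩ := Finset.mem_image.1 h1
    exact not_free_event h3 (lab_free hS _ _ _ (Finset.mem_filter.1 h2).2)

theorem goals_step {ω : TA I G Q P} {v : I → Bool} {σ : St I U} (hg : σ.goals.Nonempty) :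
    (stp S ω v σ).goals.card + 1 ≤ σ.goals.card + (S.T + 1) * (evc S ω σ).card := by
  unfold stp
  rw [dif_pos hg]
  have hp := pick_mem S σ.goals hg
  have hpos : 1 ≤ σ.goals.card := Finset.card_pos.2 hg
  cases hc : cur S (pa ω) σ with
  | none =>
    simp only [upd]
    rw [Finset.card_erase_of_mem hp]
    omega
  | some c =>
    simp only [upd]
    obtain ⟨_, hpot⟩ := cur_pot hc
    split_ifs with h2
    · simp only
      have h3 : σ.goals \ c.1 ⊆ σ.goals.erase (pick S σ.goals hg) := by
        intro u hu
        rw [Finset.mem_sdiff] at hu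
        exact Finset.mem_erase.2 ⟨fun h => hu.2 (h ▸ hpot.valid.mem), hu.1⟩
      have h4 := Finset.card_le_card h3
      rw [Finset.card_erase_of_mem hp] at h4
      omega
    · simp only
      have h3 : (hits σ c (sev S (pa ω) σ)).card ≤ S.T := by
        unfold hits
        refine (Finset.card_filter_le _ _).trans ((Finset.card_union_le _ _).trans ?_)
        have h4 : ((sev S (pa ω) σ).biUnion stm).card ≤ (sev S (pa ω) σ).card * 1 := by
          refine Finset.card_biUnion_le_card_mul _ _ _ fun ℓ _ => ?_
          rcases ℓ with ⟨⟨x, q⟩ | ⟨u, r⟩, _ | _⟩ <;> simp [stm]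
        have h5 : (sev S (pa ω) σ).card ≤ (lits c).card := by
          refine Finset.card_le_card fun ℓ hℓ => ?_
          obtain ⟨c', h6, h7, -⟩ := mem_sev.1 hℓ
          rw [hc] at h6
          rw [Option.some.inj h6]
          exact h7
        have h6 := hpot.valid.card
        omega
      have h4 : 1 ≤ (evc S ω σ).card := by
        refine Finset.card_pos.2 ?_
        unfold evc
        exact (Finset.nonempty_iff_ne_empty.2 h2).image _
      have h5 := Finset.card_union_le σ.goals (hits σ c (sev S (pa ω) σ))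
      have h6 : S.T + 1 ≤ (S.T + 1) * (evc S ω σ).card := Nat.le_mul_of_pos_right _ h4
      omega

theorem iter_succ {ω : TA I G Q P} {v : I → Bool} (m : ℕ) (σ : St I U) :
    (stp S ω v)^[m + 1] σ = (stp S ω v)^[m] (stp S ω v σ) := Function.iterate_succ_apply _ _ _

theorem goals_bound (hS : RkOk S) {ω : TA I G Q P} {v : I → Bool} : ∀ (m : ℕ) (σ : St I U),
    ((stp S ω v)^[m] σ).goals = ∅ ∨
      ((stp S ω v)^[m] σ).goals.card + m ≤ σ.goals.card + (S.T + 1) * cnt S ω v m σ := by
  intro m
  induction m with
  | zero => intro σ; right; simp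
  | succ m ih =>
    intro σ
    rw [iter_succ]
    rcases ih (stp S ω v σ) with h | h
    · exact Or.inl h
    · by_cases hg : σ.goals.Nonempty
      · right
        have h1 := goals_step (S := S) (ω := ω) (v := v) hg
        rw [cnt_succ hS, Nat.mul_add]
        omega
      · left
        have h1 : stp S ω v σ = σ := by
          unfold stp
          rw [dif_neg hg]
        rw [h1, Function.iterate_fixed h1]
        exact Finset.not_nonempty_iff_eq_empty.1 hg

/-- the known variables -/
noncomputable def kn (σ : St I U) : Finset I := Finset.univ.filter fun i => σ.kI i ≠ none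

/-- the block of a coordinate -/
def blk : Crd I G U → Finset I
  | .inl x => {x.1}
  | .inr (.inl i) => {i}
  | .inr (.inr _) => ∅

theorem kn_step {ω : TA I G Q P} {v : I → Bool} {σ : St I U} :
    (kn (stp S ω v σ)).card ≤ (kn σ).card + (evc S ω σ).card := by
  have h1 : kn (stp S ω v σ) ⊆ kn σ ∪ (evc S ω σ).biUnion blk := by
    intro i hi
    have h2 := (Finset.mem_filter.1 hi).2
    by_cases h3 : σ.kI i = none
    · refine Finset.mem_union_right _ ?_
      unfold stp at h2
      split_ifs at h2 with h4
      · cases hc : cur S (pa ω) σ with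
        | none =>
          rw [hc] at h2
          exact absurd h3 h2
        | some c =>
          rw [hc] at h2
          simp only [upd] at h2
          split_ifs at h2 with h5
          · exact absurd h3 h2
          · simp only at h2
            split_ifs at h2 with h6
            · obtain ⟨ℓ, h7, g, q, a, rfl⟩ := h6
              refine Finset.mem_biUnion.2 ⟨_, Finset.mem_image.2 ⟨_, h7, rfl⟩, ?_⟩
              cases a <;> simp [crd, blk]
            · exact absurd h3 h2
      · exact absurd h3 h2
    · exact Finset.mem_union_left _ (Finset.mem_filter.2 ⟨Finset.mem_univ _, h3⟩)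
  refine (Finset.card_le_card h1).trans ((Finset.card_union_le _ _).trans ?_)
  have h2 : ((evc S ω σ).biUnion blk).card ≤ (evc S ω σ).card * 1 := by
    refine Finset.card_biUnion_le_card_mul _ _ _ fun γ _ => ?_
    rcases γ with x | i | u <;> simp [blk]
  omega

theorem kn_bound (hS : RkOk S) {ω : TA I G Q P} {v : I → Bool} : ∀ (m : ℕ) (σ : St I U),
    (kn ((stp S ω v)^[m] σ)).card ≤ (kn σ).card + cnt S ω v m σ := by
  intro m
  induction m with
  | zero => intro σ; simp
  | succ m ih =>
    intro σ
    rw [iter_succ, cnt_succ hS]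
    have h1 := ih (stp S ω v σ)
    have h2 := kn_step (S := S) (ω := ω) (v := v) (σ := σ)
    omega

theorem iter_inv (hS : RkOk S) {sz : U → ℕ} (hsz : SzOk S sz) {ω : TA I G Q P} {v : I → Bool} :
    ∀ (m : ℕ) (σ : St I U), Inv S ω σ → Inv S ω ((stp S ω v)^[m] σ) := by
  intro m
  induction m with
  | zero => intro σ h; exact h
  | succ m ih =>
    intro σ h
    rw [iter_succ]
    exact ih _ (stp_inv hS hsz h)

/-- the knowledge agrees with the variables -/
theorem iter_kI {ω : TA I G Q P} {v : I → Bool} : ∀ (m : ℕ) (σ : St I U),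
    (∀ i b, σ.kI i = some b → v i = b) →
    ∀ i b, ((stp S ω v)^[m] σ).kI i = some b → v i = b := by
  intro m
  induction m with
  | zero => intro σ h; exact h
  | succ m ih =>
    intro σ h
    rw [iter_succ]
    refine ih _ fun i b hb => ?_
    by_cases h1 : σ.kI i = none
    · unfold stp at hb
      split_ifs at hb with h2
      · cases hc : cur S (pa ω) σ with
        | none =>
          rw [hc] at hb
          exact h i b hb
        | some c =>
          rw [hc] at hb
          simp only [upd] at hb
          split_ifs at hb with h5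
          · exact h i b hb
          · simp only at hb
            split_ifs at hb with h6
            · exact Option.some.inj hb
            · exact h i b hb
      · exact h i b hb
    · obtain ⟨b', hb'⟩ := Option.ne_none_iff_exists'.1 h1
      have := stp_kI_some (S := S) (ω := ω) (v := v) hb'
      rw [this] at hb
      rw [← Option.some.inj hb]
      exact h i b' hb'

/-- goals that disappear are known -/
theorem iter_goal {ω : TA I G Q P} {v : I → Bool} : ∀ (m : ℕ) (σ : St I U) (u : U),
    (σ.kU u ≠ none ∨ u ∈ σ.goals) →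
    (((stp S ω v)^[m] σ).kU u ≠ none ∨ u ∈ ((stp S ω v)^[m] σ).goals) := by
  intro m
  induction m with
  | zero => intro σ u h; exact h
  | succ m ih =>
    intro σ u h
    rw [iter_succ]
    refine ih _ u ?_
    by_contra hcon
    rw [not_or, not_not] at hcon
    have := stp_kU_none hcon.1 hcon.2
    rcases h with h | h
    · exact h this.1
    · exact this.2.1 h

/-- the initial state -/
def ini (u : U) : St I U := ⟨fun _ => none, fun _ => none, {u}⟩

/-- if the procedure has few events then the statement has a small certificate -/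
theorem good {sz : U → ℕ} (hS : RkOk S) (hsz : SzOk S sz) {ω : TA I G Q P} {v : I → Bool} {u : U}
    {s N : ℕ} (hN : (S.T + 1) * s + 1 ≤ N) (h : cnt S ω v N (ini u) < s) :
    ∃ D : Finset I, D.card < s ∧ ∀ v', (∀ i ∈ D, v' i = v i) → ∀ val val',
      IsVal S ω v val → IsVal S ω v' val' → (val u ↔ val' u) := by
  have h1 : ((stp S ω v)^[N] (ini u)).goals = ∅ := by
    rcases goals_bound hS (ω := ω) (v := v) N (ini u) with h1 | h1
    · exact h1
    · exfalso
      have h2 : (ini u : St I U).goals.card = 1 := Finset.card_singleton u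
      have h3 : (S.T + 1) * cnt S ω v N (ini u) + (S.T + 1) ≤ (S.T + 1) * s := by
        rw [← Nat.mul_succ]
        exact Nat.mul_le_mul_left _ h
      omega
  have h2 := iter_goal (S := S) (ω := ω) (v := v) N (ini u) u (Or.inr (Finset.mem_singleton_self u))
  rw [h1] at h2
  simp only [Finset.notMem_empty, or_false] at h2
  obtain ⟨b, hb⟩ := Option.ne_none_iff_exists'.1 h2
  have hinv : Inv S ω ((stp S ω v)^[N] (ini u)) := iter_inv hS hsz N _ (by
    intro v' val _ _ u' b' hb'
    exact absurd hb' (by simp [ini]))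
  refine ⟨kn ((stp S ω v)^[N] (ini u)), ?_, fun v' hv' val val' hval hval' => ?_⟩
  · have h3 := kn_bound hS (ω := ω) (v := v) N (ini u)
    have h4 : (kn (ini u : St I U)).card = 0 := by
      unfold kn ini
      simp
    omega
  · have h3 := iter_kI (S := S) (ω := ω) (v := v) N (ini u) (by
      intro i b' hb'
      exact absurd hb' (by simp [ini]))
    have h5 := hinv v val h3 hval u b hb
    have h6 := hinv v' val' (fun i b' hb' => by
      rw [hv' i (Finset.mem_filter.2 ⟨Finset.mem_univ _, by rw [hb']; simp⟩)]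
      exact h3 i b' hb') hval' u b hb
    rw [h5, h6]

/-- weights of the symbols -/
def wt {α β : Type} : α ⊕ β → ℕ
  | .inl _ => 1
  | .inr _ => 16

/-- the encoded assignment -/
noncomputable def encd (S : Sys I G Q P) (N : ℕ) (σ : St I U) (ω : TA I G Q P) (v : I → Bool) :
    (γ : Crd I G U) → Val I G Q P γ ⊕ (ℕ × ℕ × Bool) := fun γ =>
  match lab S ω v N σ γ with
  | none => .inl (ω γ)
  | some y => .inr y

theorem count_bad (hS : RkOk S) (N s : ℕ) (σ : St I U) (A : Finset (TA I G Q P))
    (hA : ∀ ω ∈ A, ∃ v, s ≤ cnt S ω v N σ) :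
    16 ^ s * A.card ≤ ∏ γ : Crd I G U, (Fintype.card (Val I G Q P γ) + 16 * (N * (S.T * 2))) := by
  have h1 : ∀ ω : TA I G Q P, ∃ v, ω ∈ A → s ≤ cnt S ω v N σ := by
    intro ω
    by_cases h : ω ∈ A
    · obtain ⟨v, hv⟩ := hA ω h
      exact ⟨v, fun _ => hv⟩
    · exact ⟨fun _ => false, fun h' => absurd h' h⟩
  choose v hv using h1
  let L : Finset (ℕ × ℕ × Bool) := Finset.range N ×ˢ (Finset.range S.T ×ˢ Finset.univ)
  have hL : L.card = N * (S.T * 2) := by
    simp [L]
  let T : (γ : Crd I G U) → Finset (Val I G Q P γ ⊕ (ℕ × ℕ × Bool)) := fun γ =>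
    (Finset.univ : Finset (Val I G Q P γ)).disjSum L
  let f : TA I G Q P → (γ : Crd I G U) → Val I G Q P γ ⊕ (ℕ × ℕ × Bool) := fun ω =>
    encd S N σ ω (v ω)
  have hf : ∀ ω, f ω ∈ Fintype.piFinset T := by
    intro ω
    rw [Fintype.mem_piFinset]
    intro γ
    show encd S N σ ω (v ω) γ ∈ _
    unfold encd
    cases h : lab S ω (v ω) N σ γ with
    | none => exact Finset.inl_mem_disjSum.2 (Finset.mem_univ _)
    | some y =>
      have := lab_lt _ _ _ _ h
      refine Finset.inr_mem_disjSum.2 ?_
      simp only [L, Finset.mem_product, Finset.mem_range, Finset.mem_univ, and_true]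
      exact this
  have hinj : Function.Injective f := by
    intro ω ω' he
    have h2 : ∀ γ, encd S N σ ω (v ω) γ = encd S N σ ω' (v ω') γ := fun γ => congrFun he γ
    refine enc_inj hS N σ ω ω' (v ω) (v ω') (fun γ => ?_) (fun γ hγ => ?_)
    · have h3 := h2 γ
      unfold encd at h3
      cases h4 : lab S ω (v ω) N σ γ with
      | none =>
        cases h5 : lab S ω' (v ω') N σ γ with
        | none => rfl
        | some y =>
          rw [h4, h5] at h3
          exact absurd h3 (by simp)
      | some y =>
        cases h5 : lab S ω' (v ω') N σ γ with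
        | none =>
          rw [h4, h5] at h3
          exact absurd h3 (by simp)
        | some y' =>
          rw [h4, h5] at h3
          rw [Sum.inr.inj h3]
    · have h3 := h2 γ
      unfold encd at h3
      rw [hγ] at h3
      cases h5 : lab S ω' (v ω') N σ γ with
      | none =>
        rw [h5] at h3
        exact Sum.inl.inj h3
      | some y =>
        rw [h5] at h3
        exact absurd h3 (by simp)
  have hw : ∀ ω, ∏ γ, wt (f ω γ) = 16 ^ cnt S ω (v ω) N σ := by
    intro ω
    unfold cnt
    rw [← Finset.prod_const, Finset.prod_filter]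
    refine Finset.prod_congr rfl fun γ _ => ?_
    show wt (encd S N σ ω (v ω) γ) = _
    unfold encd
    cases h : lab S ω (v ω) N σ γ with
    | none => simp [wt]
    | some y => simp [wt]
  calc 16 ^ s * A.card = ∑ ω ∈ A, 16 ^ s := by rw [Finset.sum_const, smul_eq_mul, mul_comm]
    _ ≤ ∑ ω ∈ A, ∏ γ, wt (f ω γ) := Finset.sum_le_sum fun ω hω => by
        rw [hw]
        exact Nat.pow_le_pow_right (by norm_num) (hv ω hω)
    _ = ∑ p ∈ A.image f, ∏ γ, wt (p γ) := by
        rw [Finset.sum_image fun a _ b _ h => hinj h]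
    _ ≤ ∑ p ∈ Fintype.piFinset T, ∏ γ, wt (p γ) := by
        refine Finset.sum_le_sum_of_subset fun p hp => ?_
        obtain ⟨ω, -, rfl⟩ := Finset.mem_image.1 hp
        exact hf ω
    _ = ∏ γ, ∑ a ∈ T γ, wt a := by
        rw [Finset.prod_univ_sum]
    _ = _ := by
        refine Finset.prod_congr rfl fun γ _ => ?_
        simp only [T]
        rw [Finset.sum_disjSum]
        simp only [wt, Finset.sum_const, smul_eq_mul, mul_one]
        rw [hL, Finset.card_univ, mul_comm]

/-- the product of slightly larger numbers -/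
theorem prod_bound {κ : Type} [Fintype κ] (a : κ → ℕ) (ha : ∀ k, 0 < a k) (x : ℕ)
    (h : ∑ k, (x : ℝ) / a k ≤ 1) : (∏ k, (a k + x) : ℕ) < 3 * ∏ k, a k := by
  have h1 : ∀ k, ((a k : ℝ) + x) ≤ a k * Real.exp (x / a k) := by
    intro k
    have h2 : (0 : ℝ) < a k := by exact_mod_cast ha k
    have h3 : (a k : ℝ) + x = a k * (x / a k + 1) := by
      field_simp
      ring
    rw [h3]
    exact mul_le_mul_of_nonneg_left (Real.add_one_le_exp _) h2.le
  have h2 : (∏ k, ((a k : ℝ) + x)) ≤ (∏ k, (a k : ℝ)) * Real.exp 1 := by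
    calc (∏ k, ((a k : ℝ) + x)) ≤ ∏ k, (a k * Real.exp (x / a k)) :=
          Finset.prod_le_prod (fun k _ => by positivity) fun k _ => h1 k
      _ = (∏ k, (a k : ℝ)) * Real.exp (∑ k, (x : ℝ) / a k) := by
          rw [Finset.prod_mul_distrib, Real.exp_sum]
      _ ≤ _ := by
          refine mul_le_mul_of_nonneg_left (Real.exp_le_exp.2 h) ?_
          exact Finset.prod_nonneg fun k _ => by positivity
  have h3 : (0 : ℝ) < ∏ k, (a k : ℝ) := Finset.prod_pos fun k _ => by exact_mod_cast ha k
  have h4 : (∏ k, (a k : ℝ)) * Real.exp 1 < 3 * ∏ k, (a k : ℝ) := by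
    have := Real.exp_one_lt_d9
    nlinarith
  have h5 := h2.trans_lt h4
  exact_mod_cast h5

/-- **The switching lemma for uniquely coded nested statements.** -/
theorem switching {sz : U → ℕ} (hS : RkOk S) (hsz : SzOk S sz) (s N : ℕ)
    (hG : 0 < Fintype.card G) (hQ : 0 < Fintype.card Q) (hP : ∀ u, 0 < Fintype.card (P u))
    (hN : (S.T + 1) * s + 1 ≤ N)
    (hδ : (32 * N * S.T : ℝ) * (Fintype.card (I × G) / Fintype.card Q +
      Fintype.card I / Fintype.card G + ∑ u, 1 / (Fintype.card (P u) : ℝ)) ≤ 1)
    (hU : 3 * Fintype.card U ≤ 16 ^ s) :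
    ∃ ω : TA I G Q P, ∀ u v, ∃ D : Finset I, D.card < s ∧ ∀ v', (∀ i ∈ D, v' i = v i) →
      ∀ val val', IsVal S ω v val → IsVal S ω v' val' → (val u ↔ val' u) := by
  have hpos : ∀ γ : Crd I G U, 0 < Fintype.card (Val I G Q P γ) := by
    rintro (x | i | u)
    · exact hQ
    · exact hG
    · exact hP u
  have hsum : ∑ γ : Crd I G U, ((16 * (N * (S.T * 2)) : ℕ) : ℝ) / Fintype.card (Val I G Q P γ) ≤
      1 := by
    have e1 : ∀ x : I × G, (Fintype.card (Val I G Q P (.inl x)) : ℝ) = Fintype.card Q :=
      fun x => rfl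
    have e2 : ∀ i : I, (Fintype.card (Val I G Q P (.inr (.inl i))) : ℝ) = Fintype.card G :=
      fun x => rfl
    have e3 : ∀ u : U, (Fintype.card (Val I G Q P (.inr (.inr u))) : ℝ) = Fintype.card (P u) :=
      fun x => rfl
    rw [Fintype.sum_sum_type, Fintype.sum_sum_type]
    simp only [e1, e2, e3, Finset.sum_const, Finset.card_univ, nsmul_eq_mul]
    refine le_trans (le_of_eq ?_) hδ
    have e4 : ∑ u : U, ((16 * (N * (S.T * 2)) : ℕ) : ℝ) / (Fintype.card (P u) : ℝ) =
        (32 * N * S.T : ℝ) * ∑ u, 1 / (Fintype.card (P u) : ℝ) := by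
      rw [Finset.mul_sum]
      refine Finset.sum_congr rfl fun u _ => ?_
      push_cast
      ring
    rw [e4]
    push_cast
    ring
  let bad : U → Finset (TA I G Q P) := fun u =>
    Finset.univ.filter fun ω => ∃ v, s ≤ cnt S ω v N (ini u)
  have hbad : ∀ u, 16 ^ s * (bad u).card < 3 * Fintype.card (TA I G Q P) := by
    intro u
    refine (count_bad hS N s (ini u) (bad u) fun ω hω => (Finset.mem_filter.1 hω).2).trans_lt ?_
    refine (prod_bound _ hpos _ hsum).trans_le ?_
    rw [Fintype.card_pi]
  by_cases hUe : IsEmpty U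
  · have : Nonempty (TA I G Q P) := by
      refine ⟨fun γ => ?_⟩
      exact (Fintype.card_pos_iff.1 (hpos γ)).some
    exact ⟨this.some, fun u => (hUe.false u).elim⟩
  rw [not_isEmpty_iff] at hUe
  have hex : ∃ ω, ω ∉ Finset.univ.biUnion bad := by
    by_contra hcon
    push Not at hcon
    have h1 : Finset.univ.biUnion bad = Finset.univ := Finset.eq_univ_of_forall hcon
    have h2 : Fintype.card (TA I G Q P) ≤ ∑ u, (bad u).card := by
      rw [← Finset.card_univ, ← h1]
      exact Finset.card_biUnion_le
    have h3 : 16 ^ s * Fintype.card (TA I G Q P) ≤ ∑ u, 16 ^ s * (bad u).card := by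
      rw [← Finset.mul_sum]
      exact Nat.mul_le_mul_left _ h2
    have h4 : ∑ u, 16 ^ s * (bad u).card < ∑ _u : U, 3 * Fintype.card (TA I G Q P) :=
      Finset.sum_lt_sum_of_nonempty Finset.univ_nonempty fun u _ => hbad u
    rw [Finset.sum_const, Finset.card_univ, smul_eq_mul] at h4
    have h5 : 16 ^ s * Fintype.card (TA I G Q P) <
        (3 * Fintype.card U) * Fintype.card (TA I G Q P) := by
      calc _ ≤ _ := h3
        _ < _ := h4
        _ = _ := by ring
    have h6 := Nat.mul_le_mul_right (Fintype.card (TA I G Q P)) hU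
    omega
  obtain ⟨ω, hω⟩ := hex
  refine ⟨ω, fun u v => good hS hsz hN ?_⟩
  by_contra hcon
  exact hω (Finset.mem_biUnion.2 ⟨u, Finset.mem_univ _,
    Finset.mem_filter.2 ⟨Finset.mem_univ _, v, not_lt.1 hcon⟩⟩)

end ESY.PHI
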