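import Pool.Agent.Lib.MP_80aaf5_lc.Few.Defs

/-!
# The polynomial hierarchy relative to an oracle
-/

namespace ESY

/-- the pairing `1^|x| 0 x w` -/
def pair (x w : List Bool) : List Bool := List.replicate x.length true ++ false :: (x ++ w)

/-- The classes `Σ_k` of the polynomial hierarchy relative to `O`: `Σ_0` is `P`, and `L` is in
`Σ_{k+1}` if for some `L'` in `Σ_k` and some exponent `c`, `x` is in `L` if and only if for some
`w` of length at most `|x| ^ c + c` the pair of `x` and `w` is not in `L'`. -/
def InSigma : ℕ → Oracle → Set (List Bool) → Prop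
  | 0, O, L => InP O L
  | k + 1, O, L => ∃ L', InSigma k O L' ∧ ∃ c, ∀ x, x ∈ L ↔
      ∃ w : List Bool, w.length ≤ poly c x.length ∧ pair x w ∉ L'

/-- The polynomial hierarchy relative to `O` is infinite. -/
def PHInfinite (O : Oracle) : Prop := ∀ k, ∃ L, InSigma (k + 1) O L ∧ ¬ InSigma k O L

end ESY
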