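import Pool.Agent.Lib.MP_80aaf5_lc.PH.Proc

/-!
# The encoding
-/

namespace ESY.PHI

open Classical

set_option linter.unusedSectionVars false

variable {I G Q U : Type} {P : U → Type}

/-- the type of the values of a coordinate -/
def Val (I G Q : Type) {U : Type} (P : U → Type) : Crd I G U → Type
  | .inl _ => Q
  | .inr (.inl _) => G
  | .inr (.inr u) => P u

/-- total assignments -/
abbrev TA (I G Q : Type) {U : Type} (P : U → Type) : Type := (γ : Crd I G U) → Val I G Q P γ

/-- location of a position -/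
def TA.loc (ω : TA I G Q P) (x : I × G) : Q := ω (.inl x)
/-- starred position of a block -/
def TA.sel (ω : TA I G Q P) (i : I) : G := ω (.inr (.inl i))
/-- pad of a statement -/
def TA.pad (ω : TA I G Q P) (u : U) : P u := ω (.inr (.inr u))

/-- the assignment with the coordinates in `E` erased -/
noncomputable def er (ω : TA I G Q P) (E : Set (Crd I G U)) : PA I G Q P where
  loc x := if .inl x ∈ E then none else some (ω.loc x)
  sel i := if .inr (.inl i) ∈ E then none else some (ω.sel i)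
  pad u := if .inr (.inr u) ∈ E then none else some (ω.pad u)

/-- a total assignment as a partial one -/
def pa (ω : TA I G Q P) : PA I G Q P where
  loc x := some (ω.loc x)
  sel i := some (ω.sel i)
  pad u := some (ω.pad u)

theorem er_loc {ω : TA I G Q P} {E : Set (Crd I G U)} {x : I × G} {q : Q} :
    (er ω E).loc x = some q ↔ .inl x ∉ E ∧ ω.loc x = q := by
  unfold er
  by_cases h : .inl x ∈ E <;> simp [h]

theorem er_sel {ω : TA I G Q P} {E : Set (Crd I G U)} {i : I} {g : G} :
    (er ω E).sel i = some g ↔ .inr (.inl i) ∉ E ∧ ω.sel i = g := by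
  unfold er
  by_cases h : .inr (.inl i) ∈ E <;> simp [h]

theorem er_pad {ω : TA I G Q P} {E : Set (Crd I G U)} {u : U} {r : P u} :
    (er ω E).pad u = some r ↔ .inr (.inr u) ∉ E ∧ ω.pad u = r := by
  unfold er
  by_cases h : .inr (.inr u) ∈ E <;> simp [h]

theorem pa_loc {ω : TA I G Q P} {x : I × G} {q : Q} :
    (pa ω).loc x = some q ↔ ω.loc x = q := by
  simp [pa]

theorem pa_sel {ω : TA I G Q P} {i : I} {g : G} :
    (pa ω).sel i = some g ↔ ω.sel i = g := by
  simp [pa]

theorem pa_pad {ω : TA I G Q P} {u : U} {r : P u} :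
    (pa ω).pad u = some r ↔ ω.pad u = r := by
  simp [pa]

variable [Finite I] [Finite G] [Finite Q] [Finite U] [∀ u, Finite (P u)]
variable (S : Sys I G Q P)

/-- the next goal: one of least rank -/
noncomputable def pick (A : Finset U) (h : A.Nonempty) : U := (A.exists_min_image S.rk h).choose

theorem pick_mem (A : Finset U) (h : A.Nonempty) : pick S A h ∈ A :=
  (A.exists_min_image S.rk h).choose_spec.1

theorem pick_le (A : Finset U) (h : A.Nonempty) {u : U} (hu : u ∈ A) :
    S.rk (pick S A h) ≤ S.rk u :=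
  (A.exists_min_image S.rk h).choose_spec.2 u hu

/-- the certificate looked at in a state -/
noncomputable def cur (ω : PA I G Q P) (σ : St I U) : Option (Cer I G Q P) :=
  if h : σ.goals.Nonempty then firstOf {c | Pot S ω σ (pick S σ.goals h) c} else none

/-- its events -/
noncomputable def evs (ω : PA I G Q P) (σ : St I U) (c : Cer I G Q P) : Finset (Lit I G Q P) :=
  (lits c).filter (Ev ω σ)

/-- the events of a state -/
noncomputable def sev (ω : PA I G Q P) (σ : St I U) : Finset (Lit I G Q P) :=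
  (cur S ω σ).elim ∅ (evs ω σ)

/-- the statement of a negative literal -/
def stm : Lit I G Q P → Finset U
  | (.inr ⟨u, _⟩, false) => {u}
  | _ => ∅

omit [Finite I] [Finite G] [Finite Q] [Finite U] [∀ u, Finite (P u)] in
theorem mem_stm {ℓ : Lit I G Q P} {u : U} : u ∈ stm ℓ ↔ ∃ r, ℓ = (.inr ⟨u, r⟩, false) := by
  rcases ℓ with ⟨⟨x, q⟩ | ⟨u', r⟩, _ | _⟩
  · simp [stm]
  · simp [stm]
  · simp only [stm, Finset.mem_singleton, Prod.mk.injEq, Sum.inr.injEq, and_true]
    constructor
    · rintro rfl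
      exact ⟨r, rfl⟩
    · rintro ⟨r', h⟩
      exact (congrArg Sigma.fst h).symm
  · simp [stm]

/-- the new goals -/
noncomputable def hits (σ : St I U) (c : Cer I G Q P) (e : Finset (Lit I G Q P)) : Finset U :=
  (c.1 ∪ e.biUnion stm).filter fun u => σ.kU u = none

/-- the next state -/
noncomputable def upd (σ : St I U) (v : I → Bool) (g : U) :
    Option (Cer I G Q P) → Finset (Lit I G Q P) → St I U
  | none, _ => ⟨σ.kI, Function.update σ.kU g (some false), σ.goals.erase g⟩
  | some c, e =>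
    if e = ∅ then ⟨σ.kI, fun b => if b ∈ c.1 ∧ σ.kU b = none then some true else σ.kU b,
      σ.goals \ c.1⟩
    else ⟨fun i => if ∃ ℓ ∈ e, ∃ g q a, ℓ = (.inl ((i, g), q), a) then some (v i) else σ.kI i,
      σ.kU, σ.goals ∪ hits σ c e⟩

/-- one step of the procedure -/
noncomputable def stp (ω : TA I G Q P) (v : I → Bool) (σ : St I U) : St I U :=
  if h : σ.goals.Nonempty then
    upd σ v (pick S σ.goals h) (cur S (pa ω) σ) (sev S (pa ω) σ) else σ

/-- the coordinates that may be erased later -/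
def free (ω : TA I G Q P) (σ : St I U) : Crd I G U → Prop
  | .inl x => ω.sel x.1 = x.2 ∧ σ.kI x.1 = none
  | .inr (.inl i) => σ.kI i = none
  | .inr (.inr u) => σ.kU u = none ∧ u ∉ σ.goals

variable {S}

theorem cur_pot {ω : PA I G Q P} {σ : St I U} {c : Cer I G Q P} (h : cur S ω σ = some c) :
    ∃ hg : σ.goals.Nonempty, Pot S ω σ (pick S σ.goals hg) c := by
  unfold cur at h
  split_ifs at h with h1
  exact ⟨h1, firstOf_mem h⟩

theorem mem_sev {ω : PA I G Q P} {σ : St I U} {ℓ : Lit I G Q P} :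
    ℓ ∈ sev S ω σ ↔ ∃ c, cur S ω σ = some c ∧ ℓ ∈ lits c ∧ Ev ω σ ℓ := by
  unfold sev
  cases h : cur S ω σ with
  | none => simp
  | some c => simp [evs]

theorem stp_kI_none {ω : TA I G Q P} {v : I → Bool} {σ : St I U} {i : I}
    (h : (stp S ω v σ).kI i = none) : σ.kI i = none ∧
      ∀ ℓ ∈ sev S (pa ω) σ, ∀ g q a, ℓ ≠ (.inl ((i, g), q), a) := by
  unfold stp at h
  split_ifs at h with h1
  · cases hc : cur S (pa ω) σ with
    | none =>
      rw [hc] at h
      refine ⟨h, fun ℓ hℓ => ?_⟩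
      rw [mem_sev] at hℓ
      obtain ⟨c, hc', -⟩ := hℓ
      rw [hc] at hc'
      exact absurd hc' (by simp)
    | some c =>
      rw [hc] at h
      simp only [upd] at h
      split_ifs at h with h2
      · refine ⟨h, fun ℓ hℓ => ?_⟩
        rw [h2] at hℓ
        simp at hℓ
      · simp only at h
        split_ifs at h with h3
        refine ⟨h, fun ℓ hℓ g q a he => h3 ⟨ℓ, hℓ, g, q, a, he⟩⟩
  · refine ⟨h, fun ℓ hℓ => ?_⟩
    rw [mem_sev] at hℓ
    obtain ⟨c, hc, -⟩ := hℓ
    exact absurd (cur_pot hc).1 h1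

theorem stp_kU_none {ω : TA I G Q P} {v : I → Bool} {σ : St I U} {u : U}
    (h : (stp S ω v σ).kU u = none) (hu : u ∉ (stp S ω v σ).goals) :
    σ.kU u = none ∧ u ∉ σ.goals ∧ ∀ c, cur S (pa ω) σ = some c → u ∉ c.1 ∧
      ∀ r, (.inr ⟨u, r⟩, false) ∉ sev S (pa ω) σ := by
  unfold stp at h hu
  split_ifs at h hu with h1
  · cases hc : cur S (pa ω) σ with
    | none =>
      rw [hc] at h hu
      simp only [upd] at h hu
      have h2 : u ≠ pick S σ.goals h1 := by
        rintro rfl
        simp at h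
      rw [Function.update_of_ne h2] at h
      refine ⟨h, fun h3 => hu (Finset.mem_erase.2 ⟨h2, h3⟩), fun c hc' => ?_⟩
      exact absurd hc' (by simp)
    | some c =>
      rw [hc] at h hu
      simp only [upd] at h hu
      split_ifs at h hu with h2
      · simp only at h hu
        split_ifs at h with h3
        have h4 : u ∉ c.1 := fun h4 => h3 ⟨h4, h⟩
        refine ⟨h, fun h5 => hu (Finset.mem_sdiff.2 ⟨h5, h4⟩), fun c' hc' => ?_⟩
        obtain rfl := Option.some.inj hc'
        refine ⟨h4, fun r => ?_⟩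
        rw [h2]
        simp
      · simp only [Finset.mem_union, not_or] at h hu
        refine ⟨h, hu.1, fun c' hc' => ?_⟩
        obtain rfl := Option.some.inj hc'
        refine ⟨fun h5 => hu.2 ?_, fun r h5 => hu.2 ?_⟩
        · unfold hits
          exact Finset.mem_filter.2 ⟨Finset.mem_union_left _ h5, h⟩
        · unfold hits
          refine Finset.mem_filter.2 ⟨Finset.mem_union_right _ ?_, h⟩
          exact Finset.mem_biUnion.2 ⟨_, h5, mem_stm.2 ⟨r, rfl⟩⟩
  · refine ⟨h, hu, fun c hc => ?_⟩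
    exact absurd (cur_pot hc).1 h1

/-- free coordinates stay free backwards -/
theorem free_mono {ω : TA I G Q P} {v : I → Bool} {σ : St I U} {γ : Crd I G U}
    (h : free ω (stp S ω v σ) γ) : free ω σ γ := by
  rcases γ with x | i | u
  · exact ⟨h.1, (stp_kI_none h.2).1⟩
  · exact (stp_kI_none h).1
  · have := stp_kU_none h.1 h.2
    exact ⟨this.1, this.2.1⟩

/-- the literals of valid certificates have statements of small rank -/
def RkOk (S : Sys I G Q P) : Prop :=
  ∀ u, ∀ τ ∈ S.terms u, ∀ u' r a, (.inr ⟨u', r⟩, a) ∈ τ → S.rk u' < S.rk u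

omit [Finite I] [Finite G] [Finite Q] [Finite U] [∀ u, Finite (P u)] in
theorem Valid.lit_rk (hS : RkOk S) {g : U} {c : Cer I G Q P} (hc : Valid S g c) {u : U} {r : P u}
    {a : Bool} (h : (.inr ⟨u, r⟩, a) ∈ lits c) : S.rk u < S.rk g := by
  obtain ⟨b, hb, hb'⟩ := Finset.mem_biUnion.1 h
  exact (hS b _ (hc.term b hb) u r a hb').trans_le (hc.rk b hb)

/-- the coordinates of the events are free -/
theorem free_event (hS : RkOk S) {ω : TA I G Q P} {σ : St I U} {ℓ : Lit I G Q P}
    (h : ℓ ∈ sev S (pa ω) σ) : free ω σ (crd ℓ) := by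
  obtain ⟨c, hc, hℓ, he⟩ := mem_sev.1 h
  obtain ⟨hg, hp⟩ := cur_pot hc
  rcases ℓ with ⟨⟨x, q⟩ | ⟨u, r⟩, _ | _⟩
  · exact ⟨pa_sel.1 he.2.1, he.2.2⟩
  · exact he.2.2
  · refine ⟨he.2, fun h1 => ?_⟩
    have h2 := hp.valid.lit_rk hS hℓ
    have h3 := pick_le S σ.goals hg h1
    omega
  · exact he.elim

/-- **The view lemma.** Erasing the coordinates of the events of this state and of later ones does
not change the certificate looked at. -/
theorem view {ω : TA I G Q P} {v : I → Bool} {σ : St I U}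
    {E : Set (Crd I G U)} (hE : ∀ γ ∈ E, (∃ ℓ ∈ sev S (pa ω) σ, crd ℓ = γ) ∨
      free ω (stp S ω v σ) γ) (hfr : ∀ γ ∈ E, free ω σ γ) (hE' : ∀ ℓ ∈ sev S (pa ω) σ, crd ℓ ∈ E) :
    cur S (er ω E) σ = cur S (pa ω) σ := by
  by_cases hg : σ.goals.Nonempty
  swap
  · unfold cur
    rw [dif_neg hg, dif_neg hg]
  have hsub : ∀ c, Pot S (er ω E) σ (pick S σ.goals hg) c →
      Pot S (pa ω) σ (pick S σ.goals hg) c := by
    intro c hc
    refine ⟨hc.valid, fun ℓ hℓ => ?_, hc.closed⟩
    have h0 := hc.ok ℓ hℓ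
    rcases ℓ with ⟨⟨x, q⟩ | ⟨u, r⟩, _ | _⟩
    · change ¬ _ ∨ _ at h0
      show ¬ _ ∨ _
      by_cases h1 : ω.loc x = q
      · by_cases h2 : .inl x ∈ E
        · right
          have h3 := hfr _ h2
          refine ⟨pa_sel.2 h3.1, ?_⟩
          rw [h3.2]
          simp
        · right
          rcases h0 with h3 | ⟨h3, h4⟩
          · exact absurd (er_loc.2 ⟨h2, h1⟩) h3
          · exact ⟨pa_sel.2 (er_sel.1 h3).2, h4⟩
      · left
        exact fun h => h1 (pa_loc.1 h)
    · change _ ∧ _ at h0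
      refine ⟨pa_loc.2 (er_loc.1 h0.1).2, fun h1 h2 => ?_⟩
      refine h0.2 (er_sel.2 ⟨fun h3 => ?_, pa_sel.1 h1⟩) h2
      have h4 : σ.kI x.1 = none := hfr _ h3
      rw [h4] at h2
      exact absurd h2 (by simp)
    · change ¬ _ ∨ _ at h0
      show ¬ _ ∨ _
      by_cases h1 : ω.pad u = r
      · by_cases h2 : .inr (.inr u) ∈ E
        · right
          have h3 : σ.kU u = none ∧ u ∉ σ.goals := hfr _ h2
          rw [h3.1]
          simp
        · rcases h0 with h3 | h3
          · exact absurd (er_pad.2 ⟨h2, h1⟩) h3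
          · exact Or.inr h3
      · left
        exact fun h => h1 (pa_pad.1 h)
    · exact ⟨pa_pad.2 (er_pad.1 h0.1).2, h0.2⟩
  cases hc : cur S (pa ω) σ with
  | none =>
    unfold cur at hc ⊢
    rw [dif_pos hg] at hc ⊢
    refine firstOf_empty fun c hc' => ?_
    exact firstOf_none hc c (hsub c hc')
  | some c =>
    have hcur := hc
    unfold cur at hc ⊢
    rw [dif_pos hg] at hc ⊢
    refine firstOf_sub hc hsub ?_
    have hp : Pot S (pa ω) σ (pick S σ.goals hg) c := firstOf_mem hc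
    have hev : ∀ ℓ ∈ lits c, Ev (pa ω) σ ℓ → ℓ ∈ sev S (pa ω) σ := fun ℓ h1 h2 =>
      mem_sev.2 ⟨c, hcur, h1, h2⟩
    refine ⟨hp.valid, fun ℓ hℓ => ?_, hp.closed⟩
    have h0 := hp.ok ℓ hℓ
    rcases ℓ with ⟨⟨x, q⟩ | ⟨u, r⟩, _ | _⟩
    · change ¬ _ ∨ _ at h0
      show ¬ _ ∨ _
      by_cases h1 : (er ω E).loc x = some q
      · right
        obtain ⟨h2, h3⟩ := er_loc.1 h1
        rcases h0 with h4 | ⟨h4, h5⟩
        · exact absurd (pa_loc.2 h3) h4
        · refine ⟨er_sel.2 ⟨fun h6 => h2 ?_, pa_sel.1 h4⟩, h5⟩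
          have h7 : σ.kI x.1 = none := hfr _ h6
          exact hE' _ (hev (.inl (x, q), false) hℓ ⟨pa_loc.2 h3, h4, h7⟩)
      · exact Or.inl h1
    · obtain ⟨h1, h2⟩ := h0
      have h3 : ω.loc x = q := pa_loc.1 h1
      refine ⟨er_loc.2 ⟨fun h4 => ?_, h3⟩, fun h4 => h2 (pa_sel.2 (er_sel.1 h4).2)⟩
      rcases hE _ h4 with ⟨ℓ', h5, h6⟩ | h5
      · obtain ⟨c', hc', h7, h8⟩ := mem_sev.1 h5
        rw [hcur] at hc'
        obtain rfl := Option.some.inj hc'
        rcases ℓ' with ⟨⟨x', q'⟩ | ⟨u, r⟩, _ | _⟩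
        · obtain rfl : x' = x := Sum.inl.inj h6
          have h9 : q' = q := by
            have := pa_loc.1 h8.1
            rw [← this, h3]
          subst h9
          exact hp.valid.cons _ ⟨hℓ, h7⟩
        · exact absurd h6 (by simp [crd])
        · exact absurd h6 (by simp [crd])
        · exact h8.elim
      · obtain ⟨h6, h7⟩ := h5
        have h8 := stp_kI_none h7
        exact h8.2 _ (hev (.inl (x, q), true) hℓ ⟨h1, pa_sel.2 h6, h8.1⟩) x.2 q true rfl
    · change ¬ _ ∨ _ at h0
      show ¬ _ ∨ _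
      by_cases h1 : (er ω E).pad u = some r
      · right
        rcases h0 with h4 | h4
        · exact absurd (pa_pad.2 (er_pad.1 h1).2) h4
        · exact h4
      · exact Or.inl h1
    · obtain ⟨h1, h2⟩ := h0
      have h3 : ω.pad u = r := pa_pad.1 h1
      refine ⟨er_pad.2 ⟨fun h4 => ?_, h3⟩, h2⟩
      rcases hE _ h4 with ⟨ℓ', h5, h6⟩ | h5
      · obtain ⟨c', hc', h7, h8⟩ := mem_sev.1 h5
        rw [hcur] at hc'
        obtain rfl := Option.some.inj hc'
        rcases ℓ' with ⟨⟨x', q'⟩ | ⟨u', r'⟩, _ | _⟩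
        · exact absurd h6 (by simp [crd])
        · exact absurd h6 (by simp [crd])
        · obtain rfl : u' = u := Sum.inr.inj (Sum.inr.inj h6)
          have h9 : r' = r := by
            have := pa_pad.1 h8.1
            rw [← this, h3]
          subst h9
          exact hp.valid.cons _ ⟨hℓ, h7⟩
        · exact h8.elim
      · have h8 := stp_kU_none h5.1 h5.2
        exact (h8.2.2 c hcur).1 (hp.closed u r hℓ h8.1)

end ESY.PHI
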