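import Pool.Agent.Lib.MP_80aaf5_lc.PH.World
import Pool.Agent.Lib.MP_80aaf5_lc.helper83.Hard
import Pool.Agent.Lib.MP_80aaf5_lc.Few.Defs

/-!
# The pair of the oracle: disjointness, hardness
-/

namespace ESY.PHI

open ESY ESY.Conv

/-! ### reachability -/

/-- reachability in `t` steps -/
def Rc (O : Oracle) {M : Machine} (t : ℕ) (c c' : Cfg M) : Prop := (step O M)^[t] c = c'

theorem Rc.trans {O : Oracle} {M : Machine} {t t' : ℕ} {c c' c'' : Cfg M}
    (h : Rc O t c c') (h' : Rc O t' c' c'') : Rc O (t + t') c c'' := by
  unfold Rc at *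
  rw [Nat.add_comm, Function.iterate_add_apply, h, h']

theorem Rc.cast {O : Oracle} {M : Machine} {t t' : ℕ} {c c' : Cfg M}
    (h : Rc O t c c') (e : t = t') : Rc O t' c c' := e ▸ h

section steps
variable {O : Oracle} {q : ℕ} {code : Fin (q + 1) → Instr 2 (q + 1)}
  {s t t' t'' : Fin (q + 1)} {b : Bool}

theorem ps (h : code s = .push 0 b t) (a c : List Bool) :
    Rc O 1 (Conv.cf code s a c) (Conv.cf code t (b :: a) c) := (push0 h a c).1

theorem pp (h : code s = .pop 0 t t t) (b : Bool) (a c : List Bool) :
    Rc O 1 (Conv.cf code s (b :: a) c) (Conv.cf code t a c) := (pop0 h b a c).1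

theorem qy (h : code s = .query 0 t t') (a c : List Bool) (hO : O a = true) :
    Rc O 1 (Conv.cf code s a c) (Conv.cf code t' a c) :=
  step_query_yes (M := mk2 code) (c := Conv.cf code s a c) (i := (0 : Fin 2)) h hO

theorem qn (h : code s = .query 0 t t') (a c : List Bool) (hO : O a = false) :
    Rc O 1 (Conv.cf code s a c) (Conv.cf code t a c) :=
  step_query_no (M := mk2 code) (c := Conv.cf code s a c) (i := (0 : Fin 2)) h hO

theorem st (h : code s = .halt b) (a c : List Bool) (n : ℕ) :
    Rc O n (Conv.cf code s a c) (Conv.cf code s a c) := (stay h a c n).1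

/-- a loop that moves stack 1 with marks on top of stack 0 -/
theorem mv {s0 s1 s2 s3 s4 : Fin (q + 1)} (h0 : code s0 = .pop 1 s4 s1 s2)
    (h1 : code s1 = .push 0 false s3) (h2 : code s2 = .push 0 true s3)
    (h3 : code s3 = .push 0 true s0) : ∀ w a : List Bool,
    Rc O (3 * w.length + 1) (Conv.cf code s0 a w) (Conv.cf code s4 (app w a) []) := by
  intro w
  induction w with
  | nil => intro a; exact (pop1_nil h0 a).1
  | cons b w ih =>
    intro a
    have h4 := ih (true :: b :: a)
    have e : 1 + 1 + 1 + (3 * w.length + 1) = 3 * (b :: w).length + 1 := by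
      simp only [List.length_cons]; ring
    rw [← e]
    cases b
    · have h5 : Rc O 1 (Conv.cf code s0 a (false :: w)) (Conv.cf code s1 a w) := (pop1_false h0 a w).1
      exact ((h5.trans (ps h1 _ _)).trans (ps h3 _ _)).trans h4
    · have h5 : Rc O 1 (Conv.cf code s0 a (true :: w)) (Conv.cf code s2 a w) := (pop1_true h0 a w).1
      exact ((h5.trans (ps h2 _ _)).trans (ps h3 _ _)).trans h4

end steps

/-! ### the calculus of marked strings -/

theorem app_append : ∀ p w x : List Bool, app (p ++ w) x = app w (app p x) := by
  intro p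
  induction p with
  | nil => intro w x; rfl
  | cons b p ih =>
    intro w x
    show app (p ++ w) (true :: b :: x) = app w (app p (true :: b :: x))
    rw [ih]

theorem app_split : ∀ w p q x : List Bool, app w q = app p (false :: x) →
    ∃ p', p = p' ++ w ∧ q = app p' (false :: x) := by
  intro w
  induction w using List.reverseRecOn with
  | nil => intro p q x h; exact ⟨p, by simp, h⟩
  | append_singleton w b ih =>
    intro p q x h
    rw [app_append] at h
    rcases List.eq_nil_or_concat' p with rfl | ⟨p0, b', rfl⟩
    · exact absurd (List.cons.inj h).1 (by decide)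
    · rw [app_append] at h
      have h1 := (List.cons.inj h).2
      have h2 := (List.cons.inj h1).1
      have h3 := (List.cons.inj h1).2
      obtain ⟨p', h4, h5⟩ := ih p0 q x h3
      refine ⟨p', ?_, h5⟩
      rw [h4, h2, List.append_assoc]

variable {X : Oracle}

/-! ### codes -/

/-- facts on the coded computation of an `NP` language -/
theorem coded (e : ℕ) (M : Machine) (c : ℕ) (he : mc e = (M, c)) (x : List Bool) :
    (J (List.replicate e true ++ false :: x) =
      (poly c x.length + 1) * (x.length + 2 * poly c x.length + 2)) ∧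
    ((code (List.replicate e true ++ false :: x)).length =
      J (List.replicate e true ++ false :: x) + 5 + e + x.length) := by
  have hpar : par (List.replicate e true ++ false :: x) = (e, x) := par_rep e x
  have htm : tm (List.replicate e true ++ false :: x) = poly c x.length := by
    unfold tm
    rw [hpar, he]
  refine ⟨?_, ?_⟩
  · unfold J
    rw [htm, hpar]
  · rw [code_len]
    simp only [List.length_append, List.length_replicate, List.length_cons]
    ring

theorem coded_mem (d : List Bool → Dat) {L : Set (List Bool)} (e : ℕ) (M : Machine) (c : ℕ)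
    (he : mc e = (M, c))
    (hL : ∀ x, x ∈ L ↔ ∃ w : List Bool, w.length ≤ poly c x.length ∧
      AcceptsIn (Or X d) M x w (poly c x.length)) (x : List Bool) :
    x ∈ L ↔ K X d (code (List.replicate e true ++ false :: x)) := by
  have hpar : par (List.replicate e true ++ false :: x) = (e, x) := par_rep e x
  have htm : tm (List.replicate e true ++ false :: x) = poly c x.length := by
    unfold tm
    rw [hpar, he]
  rw [hL x, K_code]
  unfold Accv
  rw [htm, hpar, he]

theorem bounds3 (e c : ℕ) : ∃ c' : ℕ, ∀ n : ℕ,
    3 * (15 * ((poly c n + 1) * (n + 2 * poly c n + 2)) + 12 * n + 12 * e + 100) ≤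
      poly c' n := by
  obtain ⟨c1, h1⟩ := bounds e c
  obtain ⟨c', h2⟩ := (PB.const 3).mul (PB.poly c1)
  exact ⟨c', fun n => (Nat.mul_le_mul_left 3 (h1 n)).trans (h2 n)⟩

/-! ### the pair -/

/-- the strings whose next bit is `b` -/
def side (O : Oracle) (b : Bool) : Set (List Bool) :=
  {q | ∃ w, O (true :: false :: true :: app w (true :: b :: q)) = true}

theorem side_iff (d : List Bool → Dat) (b : Bool) (q : List Bool) :
    q ∈ side (Or X d) b ↔ ∃ v p w, K X d (code v) ∧ pd d (code v) = p ++ b :: w ∧
      q = app p (false :: code v) := by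
  constructor
  · rintro ⟨w, hw⟩
    rw [Or_code'] at hw
    obtain ⟨v, hv, hk⟩ := hw
    have h1 : app (b :: w) q = app (pd d (code v)) (false :: code v) := hv
    obtain ⟨p, hp, hq⟩ := app_split _ _ _ _ h1
    exact ⟨v, p, w, hk, hp, hq⟩
  · rintro ⟨v, p, w, hk, hp, rfl⟩
    refine ⟨w, ?_⟩
    rw [Or_code']
    refine ⟨v, ?_, hk⟩
    rw [hp, app_append]
    rfl

/-- the machine for a side of the pair -/
def sdCode (b : Bool) : Fin 12 → Instr 2 12 := ![
    .push 0 b 1,         -- 0
    .push 0 true 2,      -- 1
    .pop 1 6 3 4,        -- 2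
    .push 0 false 5,     -- 3
    .push 0 true 5,      -- 4
    .push 0 true 2,      -- 5
    .push 0 true 7,      -- 6
    .push 0 false 8,     -- 7
    .push 0 true 9,      -- 8
    .query 0 11 10,      -- 9
    .halt true,          -- 10
    .halt false]         -- 11

theorem sd_run (O : Oracle) (b : Bool) (q w : List Bool) :
    Rc O (3 * w.length + 6) (start (mk2 (sdCode b)) q w)
      (Conv.cf (sdCode b) 9 (true :: false :: true :: app w (true :: b :: q)) []) := by
  rw [start_mk2]
  have a1 := (ps (code := sdCode b) (O := O) (s := 0) (t := 1) (b := b) rfl q w).trans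
    (ps (code := sdCode b) (s := 1) (t := 2) (b := true) rfl _ _)
  have a4 := a1.trans (mv (code := sdCode b) (s0 := 2) (s1 := 3) (s2 := 4) (s3 := 5) (s4 := 6)
    rfl rfl rfl rfl w _)
  have a5 := ((a4.trans (ps (code := sdCode b) (s := 6) (t := 7) (b := true) rfl _ _)).trans
    (ps (code := sdCode b) (s := 7) (t := 8) (b := false) rfl _ _)).trans
    (ps (code := sdCode b) (s := 8) (t := 9) (b := true) rfl _ _)
  exact a5.cast (by ring)

theorem sd_accepts_of_le (O : Oracle) (b : Bool) (q w : List Bool) (T : ℕ)
    (hT : 3 * w.length + 7 ≤ T) : AcceptsIn O (mk2 (sdCode b)) q w T ↔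
      O (true :: false :: true :: app w (true :: b :: q)) = true := by
  obtain ⟨T', rfl⟩ : ∃ T', T = 3 * w.length + 6 + 1 + T' :=
    ⟨T - (3 * w.length + 7), by omega⟩
  unfold AcceptsIn
  by_cases h : O (true :: false :: true :: app w (true :: b :: q)) = true
  · have e := ((sd_run O b q w).trans
      (qy (code := sdCode b) (s := 9) (t := 11) (t' := 10) rfl _ _ h)).trans
      (st (code := sdCode b) (s := 10) (b := true) rfl _ _ T')
    rw [show (step O (mk2 (sdCode b)))^[3 * w.length + 6 + 1 + T']
      (start (mk2 (sdCode b)) q w) = _ from e]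
    exact ⟨fun _ => h, fun _ => rfl⟩
  · have h' : O (true :: false :: true :: app w (true :: b :: q)) = false := by
      simpa using h
    have e := ((sd_run O b q w).trans
      (qn (code := sdCode b) (s := 9) (t := 11) (t' := 10) rfl _ _ h')).trans
      (st (code := sdCode b) (s := 11) (b := false) rfl _ _ T')
    rw [show (step O (mk2 (sdCode b)))^[3 * w.length + 6 + 1 + T']
      (start (mk2 (sdCode b)) q w) = _ from e]
    exact ⟨fun hh => absurd (Instr.halt.inj hh) (by decide), fun hh => absurd hh h⟩

theorem sd_sound (O : Oracle) (b : Bool) (q w : List Bool) (T : ℕ)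
    (h : AcceptsIn O (mk2 (sdCode b)) q w T) :
    O (true :: false :: true :: app w (true :: b :: q)) = true :=
  (sd_accepts_of_le O b q w (max T (3 * w.length + 7)) (le_max_right _ _)).1
    (accepts_mono _ _ q w (le_max_left _ _) h)

theorem side_np (X : Oracle) (d : List Bool → Dat) (b : Bool) :
    InNP (Or X d) (side (Or X d) b) := by
  obtain ⟨c, hc⟩ : PB fun n => 6 * n + 13 := ((PB.const 6).mul PB.id).add (PB.const 13)
  refine ⟨mk2 (sdCode b), c, fun q => ⟨fun h => ?_, ?_⟩⟩
  · rw [side_iff] at h
    obtain ⟨v, p, w, hk, hp, hq⟩ := h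
    have h3 : 6 * q.length + 13 ≤ poly c q.length := hc q.length
    have h4 : q.length = 2 * p.length + (code v).length + 1 := by
      rw [hq, app_len, List.length_cons]
      ring
    have h5 := pd_length d (code v)
    rw [hp] at h5
    simp only [List.length_append, List.length_cons] at h5
    refine ⟨w, by omega, (sd_accepts_of_le _ b q w _ (by omega)).2 ?_⟩
    rw [Or_code']
    refine ⟨v, ?_, hk⟩
    rw [hp, app_append, hq]
    rfl
  · rintro ⟨w, -, hw⟩
    exact ⟨w, sd_sound _ b q w _ hw⟩

theorem exists_K (X : Oracle) (d : List Bool → Dat) : ∃ v, K X d (code v) := by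
  let M : Machine := ⟨0, 0, fun _ => .halt true⟩
  obtain ⟨e, he⟩ := mc_surj (M, 0)
  refine ⟨List.replicate e true ++ [false], ?_⟩
  rw [K_code]
  refine ⟨[], Nat.zero_le _, ?_⟩
  have hpar : par (List.replicate e true ++ [false]) = (e, []) := par_rep e []
  have key : ∀ (N : Machine) (x w : List Bool) (t : ℕ), N = M → AcceptsIn (Or X d) N x w t := by
    rintro N x w t rfl
    rfl
  refine key _ _ _ _ ?_
  rw [hpar, he]

theorem side_nonempty (X : Oracle) (d : List Bool → Dat) (b : Bool) :
    (side (Or X d) b).Nonempty := by
  obtain ⟨v, hv⟩ := exists_K X d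
  cases b
  · exact ⟨app [true] (false :: code v),
      (side_iff d false _).2 ⟨v, [true], pbits (d (code v)).y (code v).length, hv, rfl, rfl⟩⟩
  · exact ⟨app [] (false :: code v),
      (side_iff d true _).2 ⟨v, [], false :: pbits (d (code v)).y (code v).length, hv, rfl, rfl⟩⟩

theorem side_disjoint (X : Oracle) (d : List Bool → Dat) :
    Disjoint (side (Or X d) true) (side (Or X d) false) := by
  rw [Set.disjoint_left]
  intro q h h'
  rw [side_iff] at h h'
  obtain ⟨v, p, w, -, hp, hq⟩ := h
  obtain ⟨v', p', w', -, hp', hq'⟩ := h'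
  rw [hq] at hq'
  obtain ⟨h1, h2⟩ := app_inj' hq'
  have h3 := code_inj h2
  subst h3 h1
  rw [hp] at hp'
  have h4 := List.append_cancel_left hp'
  exact absurd (List.cons.inj h4).1 (by decide)

/-- the pair is a disjoint `NP`-pair -/
theorem side_pair (X : Oracle) (d : List Bool → Dat) :
    DisjointNPPair (Or X d) (side (Or X d) true) (side (Or X d) false) :=
  ⟨side_nonempty X d true, side_nonempty X d false, side_np X d true, side_np X d false,
    side_disjoint X d⟩

/-! ### hardness -/

/-- the reduction -/
def hdCode : Fin 28 → Instr 2 28 := ![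
    .push 0 false 1,     -- 0
    .push 0 false 2,     -- 1
    .push 0 true 3,      -- 2
    .push 0 true 4,      -- 3
    .push 0 false 5,     -- 4
    .query 0 6 8,        -- 5
    .pop 0 7 7 7,        -- 6
    .push 0 true 4,      -- 7
    .pop 0 9 9 9,        -- 8
    .push 0 false 10,    -- 9
    .push 0 true 11,     -- 10
    .push 0 false 12,    -- 11
    .push 0 true 13,     -- 12
    .push 0 false 14,    -- 13
    .query 0 15 27,      -- 14
    .pop 0 16 16 16,     -- 15
    .pop 0 17 17 17,     -- 16
    .pop 0 18 18 18,     -- 17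
    .pop 0 19 19 19,     -- 18
    .push 0 true 20,     -- 19
    .query 0 21 24,      -- 20
    .pop 0 22 22 22,     -- 21
    .push 0 false 23,    -- 22
    .push 0 true 10,     -- 23
    .pop 0 25 25 25,     -- 24
    .push 0 true 26,     -- 25
    .push 0 true 10,     -- 26
    .halt true]          -- 27

theorem hd_loop (d : List Bool → Dat) (S : Oracle) (v c : List Bool) : ∀ n i : ℕ, i + n = J v →
    Rc (join (Or X d) S) (4 * n + 3)
      (Conv.cf hdCode 4 (List.replicate (i + 2) true ++ false :: false :: v) c)
      (Conv.cf hdCode 9 (code v) c) := by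
  intro n
  induction n with
  | zero =>
    intro i hi
    obtain rfl : i = J v := by omega
    have h1 := (ps (code := hdCode) (O := join (Or X d) S) (s := 4) (t := 5) (b := false) rfl
      (List.replicate (J v + 2) true ++ false :: false :: v) c).trans
      (qy (code := hdCode) (s := 5) (t := 6) (t' := 8) rfl _ _ (by
        show Or X d _ = true
        rw [Or_ruler]; simp))
    exact h1.trans (pp (code := hdCode) (s := 8) (t := 9) rfl _ _ _)
  | succ n ih =>
    intro i hi
    have h1 := (ps (code := hdCode) (O := join (Or X d) S) (s := 4) (t := 5) (b := false) rfl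
      (List.replicate (i + 2) true ++ false :: false :: v) c).trans
      (qn (code := hdCode) (s := 5) (t := 6) (t' := 8) rfl _ _ (by
        show Or X d _ = false
        rw [Or_ruler]
        simp only [decide_eq_false_iff_not, not_le]
        omega))
    have h2 := (h1.trans (pp (code := hdCode) (s := 6) (t := 7) rfl _ _ _)).trans
      (ps (code := hdCode) (s := 7) (t := 4) (b := true) rfl _ _)
    exact (h2.trans (ih (i + 1) (by omega))).cast (by ring)

theorem hd_round (O S : Oracle) (s : List Bool)
    (h : O (true :: false :: true :: s) = false) :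
    Rc (join O S) 14 (Conv.cf hdCode 10 s []) (Conv.cf hdCode 10 (true :: S s :: s) []) := by
  have a1 := (((ps (code := hdCode) (O := join O S) (s := 10) (t := 11) (b := true) rfl
    s []).trans
    (ps (code := hdCode) (s := 11) (t := 12) (b := false) rfl _ _)).trans
    (ps (code := hdCode) (s := 12) (t := 13) (b := true) rfl _ _)).trans
    (ps (code := hdCode) (s := 13) (t := 14) (b := false) rfl _ _)
  have a2 := a1.trans (qn (code := hdCode) (s := 14) (t := 15) (t' := 27) rfl _ _ h)
  have a3 := (((a2.trans (pp (code := hdCode) (s := 15) (t := 16) rfl _ _ _)).trans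
    (pp (code := hdCode) (s := 16) (t := 17) rfl _ _ _)).trans
    (pp (code := hdCode) (s := 17) (t := 18) rfl _ _ _)).trans
    (pp (code := hdCode) (s := 18) (t := 19) rfl _ _ _)
  have a4 := a3.trans (ps (code := hdCode) (s := 19) (t := 20) (b := true) rfl _ _)
  have a4' := a4.cast (t' := 10) (by norm_num)
  clear a1 a2 a3 a4
  cases hS : S s
  · have a5 := a4'.trans (qn (code := hdCode) (s := 20) (t := 21) (t' := 24) rfl _ _ hS)
    exact (((a5.trans (pp (code := hdCode) (s := 21) (t := 22) rfl _ _ _)).trans
      (ps (code := hdCode) (s := 22) (t := 23) (b := false) rfl _ _)).trans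
      (ps (code := hdCode) (s := 23) (t := 10) (b := true) rfl _ _)).cast (by norm_num)
  · have a5 := a4'.trans (qy (code := hdCode) (s := 20) (t := 21) (t' := 24) rfl _ _ hS)
    exact (((a5.trans (pp (code := hdCode) (s := 24) (t := 25) rfl _ _ _)).trans
      (ps (code := hdCode) (s := 25) (t := 26) (b := true) rfl _ _)).trans
      (ps (code := hdCode) (s := 26) (t := 10) (b := true) rfl _ _)).cast (by norm_num)

theorem hd_last (O S : Oracle) (s : List Bool)
    (h : O (true :: false :: true :: s) = true) :
    Rc (join O S) 5 (Conv.cf hdCode 10 s []) (Conv.cf hdCode 27 (false :: true :: false :: true :: s) []) := by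
  have a1 := (((ps (code := hdCode) (O := join O S) (s := 10) (t := 11) (b := true) rfl
    s []).trans
    (ps (code := hdCode) (s := 11) (t := 12) (b := false) rfl _ _)).trans
    (ps (code := hdCode) (s := 12) (t := 13) (b := true) rfl _ _)).trans
    (ps (code := hdCode) (s := 13) (t := 14) (b := false) rfl _ _)
  exact (a1.trans (qy (code := hdCode) (s := 14) (t := 15) (t' := 27) rfl _ _ h)).cast
    (by norm_num)

theorem hd_start (d : List Bool → Dat) (S : Oracle) (v : List Bool) :
    Rc (join (Or X d) S) (4 * J v + 8) (start (mk2 hdCode) v [])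
      (Conv.cf hdCode 10 (app [] (false :: code v)) []) := by
  rw [start_mk2]
  have a1 := (((ps (code := hdCode) (O := join (Or X d) S) (s := 0) (t := 1) (b := false) rfl
    v []).trans
    (ps (code := hdCode) (s := 1) (t := 2) (b := false) rfl _ _)).trans
    (ps (code := hdCode) (s := 2) (t := 3) (b := true) rfl _ _)).trans
    (ps (code := hdCode) (s := 3) (t := 4) (b := true) rfl _ _)
  have a2 := a1.trans (hd_loop d S v [] (J v) 0 (by omega))
  exact (a2.trans (ps (code := hdCode) (s := 9) (t := 10) (b := false) rfl _ _)).cast (by ring)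

/-- with a separator, the bits of the pad of an accepting computation are found one by one -/
theorem hd_yes (d : List Bool → Dat) (S : Oracle)
    (hS : Separator (side (Or X d) true) (side (Or X d) false) S) (v : List Bool)
    (hk : K X d (code v)) : ∀ r p : List Bool, pd d (code v) = p ++ r → ∃ s,
    Rc (join (Or X d) S) (14 * r.length + 5) (Conv.cf hdCode 10 (app p (false :: code v)) [])
      (Conv.cf hdCode 27 s []) := by
  intro r
  induction r with
  | nil =>
    intro p hp
    rw [List.append_nil] at hp
    exact ⟨_, hd_last _ _ _ ((Or_code d p v).2 ⟨hp.symm, hk⟩)⟩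
  | cons b r ih =>
    intro p hp
    have h1 : Or X d (true :: false :: true :: app p (false :: code v)) = false := by
      rw [← Bool.not_eq_true, Or_code]
      rintro ⟨h, -⟩
      have := congrArg List.length (h.trans hp)
      simp only [List.length_append, List.length_cons] at this
      omega
    have h2 := hd_round (Or X d) S _ h1
    have h3 : app p (false :: code v) ∈ side (Or X d) b :=
      (side_iff d b _).2 ⟨v, p, r, hk, hp, rfl⟩
    have h4 : S (app p (false :: code v)) = b := by
      cases b
      · exact hS.2 _ h3
      · exact hS.1 _ h3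
    rw [h4] at h2
    have h5 : (true :: b :: app p (false :: code v)) = app (p ++ [b]) (false :: code v) := by
      rw [app_append]
      rfl
    rw [h5] at h2
    obtain ⟨s, hs⟩ := ih (p ++ [b]) (by rw [hp, List.append_assoc]; rfl)
    exact ⟨s, (h2.trans hs).cast (by simp only [List.length_cons]; ring)⟩

/-- if the computation is not accepting the loop never ends -/
theorem hd_no (d : List Bool → Dat) (S : Oracle) (v : List Bool)
    (hk : ¬ K X d (code v)) : ∀ (n : ℕ) (p : List Bool), ∃ s,
    Rc (join (Or X d) S) (14 * n) (Conv.cf hdCode 10 (app p (false :: code v)) [])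
      (Conv.cf hdCode 10 s []) := by
  intro n
  induction n with
  | zero => intro p; exact ⟨_, rfl⟩
  | succ n ih =>
    intro p
    have h1 : Or X d (true :: false :: true :: app p (false :: code v)) = false := by
      rw [← Bool.not_eq_true, Or_code]
      exact fun h => hk h.2
    have h2 := hd_round (Or X d) S _ h1
    have h5 : (true :: S (app p (false :: code v)) :: app p (false :: code v)) =
        app (p ++ [S (app p (false :: code v))]) (false :: code v) := by
      rw [app_append]
      rfl
    rw [h5] at h2
    obtain ⟨s, hs⟩ := ih (p ++ [S (app p (false :: code v))])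
    exact ⟨s, (h2.trans hs).cast (by ring)⟩

/-- the pair is hard for `NP` -/
theorem side_hard (X : Oracle) (d : List Bool → Dat) :
    NPHard (Or X d) (side (Or X d) true) (side (Or X d) false) := by
  rintro S hS L ⟨M, c, hL⟩
  obtain ⟨e, he⟩ := mc_surj (M, c)
  obtain ⟨c', hc'⟩ := bounds3 e c
  have hx := fun x => coded_mem (X := X) d e M c he hL x
  refine ⟨pr (mk2 hdCode) e, c', fun x => ?_⟩
  have hb : 3 * (15 * J (List.replicate e true ++ false :: x) +
      12 * x.length + 12 * e + 100) ≤ poly c' x.length := by
    rw [(coded e M c he x).1]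
    exact hc' x.length
  have hsub : poly c' x.length - e - 1 + e + 1 = poly c' x.length := by omega
  rw [hx x, ← hsub, accepts_pr]
  constructor
  · intro hk
    obtain ⟨s, hs⟩ := hd_yes d S hS _ hk (pd d _) [] rfl
    have h1 := (hd_start (X := X) d S (List.replicate e true ++ false :: x)).trans hs
    have hl := pd_length d (code (List.replicate e true ++ false :: x))
    have h2 := (coded e M c he x).2
    refine accepts_mono _ _ _ _ (t := 4 * J (List.replicate e true ++ false :: x) + 8 +
      (14 * (pd d (code (List.replicate e true ++ false :: x))).length + 5)) (by omega) ?_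
    unfold AcceptsIn
    rw [show (step (join (Or X d) S) (mk2 hdCode))^[_] (start (mk2 hdCode) _ _) = _ from h1]
    rfl
  · intro ha
    by_contra hk
    obtain ⟨s, hs⟩ := hd_no d S _ hk (poly c' x.length) []
    have h1 := (hd_start (X := X) d S (List.replicate e true ++ false :: x)).trans hs
    have h2 := accepts_mono _ _ _ _ (t' := 4 * J (List.replicate e true ++ false :: x) + 8 +
      14 * poly c' x.length) (by omega) ha
    unfold AcceptsIn at h2
    rw [show (step (join (Or X d) S) (mk2 hdCode))^[_] (start (mk2 hdCode) _ _) = _ from h1] at h2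
    exact absurd h2 (by intro hh; cases hh)

end ESY.PHI
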