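import Pool.Agent.Lib.MP_80aaf5_lc.PH.World
import Pool.Agent.Lib.MP_80aaf5_lc.helper83.Hard
import Pool.Agent.Lib.MP_80aaf5_lc.Few.Defs

/-!
# Every language in NP is in UP
-/

namespace ESY.PHI

open ESY ESY.Conv

/-- build the code, move the witness with marks, ask -/
def upCode : Fin 17 → Instr 2 17 := ![
    .push 0 false 1,     -- 0
    .push 0 false 2,     -- 1
    .push 0 true 3,      -- 2
    .push 0 true 4,      -- 3
    .query 0 5 6,        -- 4
    .push 0 true 4,      -- 5
    .push 0 false 7,     -- 6
    .pop 1 11 8 9,       -- 7
    .push 0 false 10,    -- 8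
    .push 0 true 10,     -- 9
    .push 0 true 7,      -- 10
    .push 0 true 12,     -- 11
    .push 0 false 13,    -- 12
    .push 0 true 14,     -- 13
    .query 0 16 15,      -- 14
    .halt true,          -- 15
    .halt false]         -- 16

variable {O : Oracle}

theorem q0_yes {q : ℕ} {code : Fin (q + 1) → Instr 2 (q + 1)} {s t t' : Fin (q + 1)}
    (h : code s = .query 0 t t') (a c : List Bool) (hO : O a = true) :
    step O (mk2 code) (Conv.cf code s a c) = Conv.cf code t' a c :=
  step_query_yes (M := mk2 code) (c := Conv.cf code s a c) (i := (0 : Fin 2)) (n := t)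
    (n' := t') h hO

theorem q0_no {q : ℕ} {code : Fin (q + 1) → Instr 2 (q + 1)} {s t t' : Fin (q + 1)}
    (h : code s = .query 0 t t') (a c : List Bool) (hO : O a = false) :
    step O (mk2 code) (Conv.cf code s a c) = Conv.cf code t a c :=
  step_query_no (M := mk2 code) (c := Conv.cf code s a c) (i := (0 : Fin 2)) (n := t)
    (n' := t') h hO

theorem up_loop1 (r c : List Bool) (J : ℕ)
    (hlt : ∀ i < J, O (List.replicate (i + 2) true ++ r) = false)
    (heq : O (List.replicate (J + 2) true ++ r) = true) :
    ∀ d i : ℕ, i + d = J → (step O (mk2 upCode))^[2 * d + 1]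
      (Conv.cf upCode 4 (List.replicate (i + 2) true ++ r) c) =
        Conv.cf upCode 6 (List.replicate (J + 2) true ++ r) c := by
  intro d
  induction d with
  | zero =>
    intro i hi
    obtain rfl : i = J := by omega
    exact q0_yes (code := upCode) (s := 4) (t := 5) (t' := 6) rfl _ _ heq
  | succ d ih =>
    intro i hi
    have e : 2 * (d + 1) + 1 = (2 * d + 1) + 1 + 1 := by ring
    rw [e, Function.iterate_succ_apply, Function.iterate_succ_apply,
      q0_no (code := upCode) (s := 4) (t := 5) (t' := 6) rfl _ _ (hlt i (by omega))]
    have h1 := (push0 (code := upCode) (O := O) (s := 5) (t := 4) (b := true) rfl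
      (List.replicate (i + 2) true ++ r) c).1
    rw [Function.iterate_one] at h1
    rw [h1]
    exact ih (i + 1) (by omega)

theorem up_loop2 : ∀ w x : List Bool,
    (step O (mk2 upCode))^[3 * w.length + 1] (Conv.cf upCode 7 x w) =
      Conv.cf upCode 11 (app w x) [] := by
  intro w
  induction w with
  | nil => intro x; exact (pop1_nil (code := upCode) (s := 7) (t' := 8) (t'' := 9) rfl x).1
  | cons d w ih =>
    intro x
    have h2 := ih (true :: d :: x)
    have e : 3 * (d :: w).length + 1 = (3 * w.length + 1) + (1 + 1 + 1) := by
      simp only [List.length_cons]; ring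
    rw [e, Function.iterate_add_apply]
    cases d
    · rw [(((pop1_false (code := upCode) (s := 7) (t := 11) (t' := 8) (t'' := 9) rfl x w).trans
        (push0 (s := 8) (t := 10) (b := false) rfl _ _)).trans
        (push0 (s := 10) (t := 7) (b := true) rfl _ _)).1]
      exact h2
    · rw [(((pop1_true (code := upCode) (s := 7) (t := 11) (t' := 8) (t'' := 9) rfl x w).trans
        (push0 (s := 9) (t := 10) (b := true) rfl _ _)).trans
        (push0 (s := 10) (t := 7) (b := true) rfl _ _)).1]
      exact h2

theorem up_accepts_of_le (v w : List Bool) (J T : ℕ)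
    (hlt : ∀ i < J, O (List.replicate (i + 2) true ++ false :: false :: v) = false)
    (heq : O (List.replicate (J + 2) true ++ false :: false :: v) = true)
    (hT : 2 * J + 3 * w.length + 12 ≤ T) : AcceptsIn O (mk2 upCode) v w T ↔
      O (true :: false :: true ::
        app w (false :: (List.replicate (J + 2) true ++ false :: false :: v))) = true := by
  obtain ⟨T', rfl⟩ : ∃ T', T = T' + 1 + (1 + 1 + 1) + (3 * w.length + 1) + 1 + (2 * J + 1) +
      (1 + 1 + 1 + 1) := ⟨T - (2 * J + 3 * w.length + 11), by omega⟩
  unfold AcceptsIn
  rw [start_mk2, Function.iterate_add_apply,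
    ((((push0 (code := upCode) (s := 0) (t := 1) (b := false) rfl _ _).trans
      (push0 (s := 1) (t := 2) (b := false) rfl _ _)).trans
      (push0 (s := 2) (t := 3) (b := true) rfl _ _)).trans
      (push0 (s := 3) (t := 4) (b := true) rfl _ _)).1, Function.iterate_add_apply,
    show (true :: true :: false :: false :: v) =
      List.replicate (0 + 2) true ++ false :: false :: v from rfl,
    up_loop1 (false :: false :: v) w J hlt heq J 0 (by omega), Function.iterate_add_apply,
    (push0 (code := upCode) (s := 6) (t := 7) (b := false) rfl _ _).1,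
    Function.iterate_add_apply, up_loop2, Function.iterate_add_apply,
    (((push0 (code := upCode) (s := 11) (t := 12) (b := true) rfl _ _).trans
      (push0 (s := 12) (t := 13) (b := false) rfl _ _)).trans
      (push0 (s := 13) (t := 14) (b := true) rfl _ _)).1, Function.iterate_succ_apply]
  by_cases h : O (true :: false :: true ::
        app w (false :: (List.replicate (J + 2) true ++ false :: false :: v))) = true
  · rw [q0_yes (code := upCode) (s := 14) (t := 16) (t' := 15) rfl _ _ h,
      (stay (code := upCode) (s := 15) (b := true) rfl _ _ T').1]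
    exact ⟨fun _ => h, fun _ => rfl⟩
  · rw [q0_no (code := upCode) (s := 14) (t := 16) (t' := 15) rfl _ _
      ((Bool.not_eq_true _).mp h), (stay (code := upCode) (s := 16) (b := false) rfl _ _ T').1]
    exact ⟨fun hh => absurd (Instr.halt.inj hh) (by decide), fun hh => absurd hh h⟩

theorem up_sound (v w : List Bool) (J T : ℕ)
    (hlt : ∀ i < J, O (List.replicate (i + 2) true ++ false :: false :: v) = false)
    (heq : O (List.replicate (J + 2) true ++ false :: false :: v) = true)
    (h : AcceptsIn O (mk2 upCode) v w T) :
    O (true :: false :: true ::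
        app w (false :: (List.replicate (J + 2) true ++ false :: false :: v))) = true :=
  (up_accepts_of_le v w J (max T (2 * J + 3 * w.length + 12)) hlt heq (le_max_right _ _)).1
    (accepts_mono O _ v w (le_max_left _ _) h)

/-- the code of the computation of the machine with index `e` on `x` -/
noncomputable def cd (e : ℕ) (x : List Bool) : List Bool :=
  code (List.replicate e true ++ false :: x)

/-- accepting computations of a language of `NP`, and a polynomial bound -/
theorem np_code (X : Oracle) (d : List Bool → Dat) {L : Set (List Bool)}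
    (h : InNP (Or X d) L) : ∃ e c' : ℕ, (∀ x, x ∈ L ↔ K X d (cd e x)) ∧
      ∀ x : List Bool, 15 * J (List.replicate e true ++ false :: x) + 12 * x.length + 12 * e +
        100 ≤ poly c' x.length := by
  obtain ⟨M, c, hL⟩ := h
  obtain ⟨e, he⟩ := mc_surj (M, c)
  obtain ⟨c', hc'⟩ := bounds e c
  have hpar : ∀ x : List Bool, par (List.replicate e true ++ false :: x) = (e, x) :=
    fun x => par_rep e x
  have htm : ∀ x : List Bool, tm (List.replicate e true ++ false :: x) = poly c x.length := by
    intro x
    unfold tm
    rw [hpar, he]
  refine ⟨e, c', fun x => ?_, fun x => ?_⟩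
  · unfold cd
    rw [K_code, hL x]
    unfold Accv
    rw [htm, hpar, he]
  · unfold J
    rw [htm, hpar]
    exact hc' x.length

theorem cd_len (e : ℕ) (x : List Bool) :
    (cd e x).length = J (List.replicate e true ++ false :: x) + 5 + e + x.length := by
  unfold cd
  rw [code_len]
  simp only [List.length_append, List.length_replicate, List.length_cons]
  ring

/-- Every language in `NP` is in `UP`. -/
theorem np_up (X : Oracle) (d : List Bool → Dat) {L : Set (List Bool)}
    (h : InNP (Or X d) L) : InUPk 1 (Or X d) L := by
  obtain ⟨e, c', h1, h2⟩ := np_code X d h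
  have hlt : ∀ x : List Bool, ∀ i < J (List.replicate e true ++ false :: x),
      Or X d (List.replicate (i + 2) true ++ false :: false ::
        (List.replicate e true ++ false :: x)) = false := by
    intro x i hi
    rw [Or_ruler, decide_eq_false_iff_not]
    omega
  have heq : ∀ x : List Bool, Or X d (List.replicate (J (List.replicate e true ++ false :: x) + 2)
      true ++ false :: false :: (List.replicate e true ++ false :: x)) = true := by
    intro x
    rw [Or_ruler, decide_eq_true_iff]
  have hsub : ∀ x : List Bool, poly c' x.length - e - 1 + e + 1 = poly c' x.length := by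
    intro x
    have := h2 x
    omega
  have hacc : ∀ x w : List Bool, AcceptsIn (Or X d) (pr (mk2 upCode) e) x w (poly c' x.length) →
      w = pd d (cd e x) ∧ K X d (cd e x) := by
    intro x w ha
    rw [← hsub x, accepts_pr] at ha
    have h3 := up_sound _ _ _ _ (hlt x) (heq x) ha
    exact (Or_code d w (List.replicate e true ++ false :: x)).1 h3
  refine ⟨pr (mk2 upCode) e, c', fun x => ⟨fun hx => ?_, ?_⟩, fun x => ?_⟩
  · have hk := (h1 x).1 hx
    have h3 := h2 x
    have h4 := cd_len e x
    have h5 := pd_length d (cd e x)
    refine ⟨pd d (cd e x), by omega, ?_⟩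
    rw [← hsub x, accepts_pr, up_accepts_of_le _ _ _ _ (hlt x) (heq x) (by omega)]
    exact (Or_code d _ (List.replicate e true ++ false :: x)).2 ⟨rfl, hk⟩
  · rintro ⟨w, -, ha⟩
    exact (h1 x).2 (hacc x w ha).2
  · rw [Nat.cast_one, Set.encard_le_one_iff]
    rintro w w' ⟨-, hw⟩ ⟨-, hw'⟩
    rw [(hacc x w hw).1, (hacc x w' hw').1]

end ESY.PHI
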