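import Pool.Agent.Lib.MP_80aaf5_lc.PH.Force
import Pool.Agent.Lib.MP_80aaf5_lc.PH.Pair
import Pool.Agent.Lib.MP_80aaf5_lc.PH.UpM

/-!
# The final theorem
-/

namespace ESY.PHI

open ESY

theorem final (X : Oracle) : ∃ Y : Oracle,
    (∀ L, InNP (join X Y) L → InUPk 1 (join X Y) L) ∧ PHInfinite (join X Y) ∧
      ∃ A B, DisjointNPPair (join X Y) A B ∧ NPHard (join X Y) A B := by
  obtain ⟨d, hd⟩ := exists_data X
  refine ⟨fun s => Or X d (true :: s), ?_⟩
  rw [← Or_eq_join]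
  exact ⟨fun L hL => np_up X d hL, phInfinite hd, _, _, side_pair X d, side_hard X d⟩

end ESY.PHI
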