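import Pool.Agent.Lib.MP_80aaf5_lc.PH.Stage2

/-!
# The data; the polynomial hierarchy is infinite
-/

namespace ESY.PHI

open ESY ESY.Conv

/-- meeting countably many requirements, each of which can be met above every length and
depends on a bounded part of the data -/
theorem forcing {ι : Type} [Countable ι] [Nonempty ι] (F : ι → (List Bool → Dat) → Prop)
    (hd : ∀ i D l, ∃ D' l', l ≤ l' ∧ Agr l D D' ∧ ∀ D'', Agr l' D' D'' → F i D'') :
    ∃ D, ∀ i, F i D := by
  obtain ⟨e, he⟩ := exists_surjective_nat ι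
  choose nD nl h1 h2 h3 using hd
  let sq : ℕ → (List Bool → Dat) × ℕ := fun k => Nat.rec (fun _ => ⟨false, fun _ => false⟩, 0)
    (fun k p => (nD (e k) p.1 (p.2 + 1), nl (e k) p.1 (p.2 + 1))) k
  have hs : ∀ k, sq (k + 1) =
    (nD (e k) (sq k).1 ((sq k).2 + 1), nl (e k) (sq k).1 ((sq k).2 + 1)) := fun k => rfl
  have hlt : ∀ k, (sq k).2 + 1 ≤ (sq (k + 1)).2 := by
    intro k
    rw [hs]
    exact h1 _ _ _
  have hag : ∀ k, Agr ((sq k).2) (sq k).1 (sq (k + 1)).1 := by
    intro k
    rw [hs]
    exact (h2 (e k) (sq k).1 ((sq k).2 + 1)).mono (Nat.le_succ _)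
  have hge : ∀ k, k ≤ (sq k).2 := by
    intro k
    induction k with
    | zero => exact Nat.zero_le _
    | succ k ih => have := hlt k; omega
  have hag' : ∀ k d, Agr ((sq k).2) (sq k).1 (sq (k + d)).1 ∧ (sq k).2 ≤ (sq (k + d)).2 := by
    intro k d
    induction d with
    | zero => exact ⟨Agr.refl _ _, le_rfl⟩
    | succ d ih =>
      refine ⟨ih.1.trans ((hag (k + d)).mono ih.2), ih.2.trans ?_⟩
      have := hlt (k + d)
      show (sq (k + d)).2 ≤ (sq (k + d + 1)).2
      omega
  refine ⟨fun s => (sq (s.length + 1)).1 s, fun i => ?_⟩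
  obtain ⟨k, rfl⟩ := he i
  refine h3 (e k) (sq k).1 ((sq k).2 + 1) _ fun s hs' => ?_
  have hs'' : s.length < (sq (k + 1)).2 := hs'
  show (sq (s.length + 1)).1 s = (sq (k + 1)).1 s
  rcases le_total (k + 1) (s.length + 1) with h | h
  · obtain ⟨d, hd⟩ := Nat.exists_eq_add_of_le h
    rw [hd]
    exact (hag' (k + 1) d).1 s hs''
  · obtain ⟨d, hd⟩ := Nat.exists_eq_add_of_le h
    rw [hd]
    exact ((hag' (s.length + 1) d).1 s (by have := hge (s.length + 1); omega)).symm

/-- the requirement -/
def Rq (X : Oracle) (i : Machine × ℕ × List ℕ) (d : List Bool → Dat) : Prop :=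
  ∃ x, ¬ (Sem (Or X d) i.1 i.2.1 i.2.2 x ↔ x ∈ TT (Or X d) (2 * (i.2.2.length + 2)))

theorem exists_data (X : Oracle) : ∃ d, ∀ i, Rq X i d := by
  have : Nonempty (Machine × ℕ × List ℕ) := ⟨(red, 0, [])⟩
  refine forcing _ ?_
  rintro ⟨M, c0, cs⟩ d0 l0
  obtain ⟨d, hd, x, hx⟩ := stage X d0 l0 M c0 cs
  obtain ⟨L1, hL1⟩ := sem_local M c0 cs x
  obtain ⟨L2, hL2⟩ := tt_local (2 * (cs.length + 2)) x
  refine ⟨d, max l0 (max L1 L2), le_max_left _ _, hd, fun d' hd' => ⟨x, ?_⟩⟩
  have h1 := (agr_all (X := X) hd').2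
  have h2 := hL1 (Or X d) (Or X d') fun s hs =>
    h1 s ((hs.trans (le_max_left _ _)).trans (le_max_right _ _))
  have h3 := hL2 (Or X d) (Or X d') fun s hs =>
    h1 s ((hs.trans (le_max_right _ _)).trans (le_max_right _ _))
  show ¬ (Sem (Or X d') M c0 cs x ↔ x ∈ TT (Or X d') (2 * (cs.length + 2)))
  rw [h2, h3]
  exact hx

/-- the machine for the free part -/
def frCode : Fin 6 → Instr 2 6 := ![
    .push 0 false 1,     -- 0
    .push 0 false 2,     -- 1
    .push 0 true 3,      -- 2
    .query 0 5 4,        -- 3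
    .halt true,          -- 4
    .halt false]         -- 5

theorem inP_TT0 (O : Oracle) : InP O (TT O 0) := by
  refine ⟨mk2 frCode, 4, fun x => ?_⟩
  obtain ⟨T, hT⟩ : ∃ T, poly 4 x.length = T + 1 + (1 + 1 + 1) :=
    ⟨x.length ^ 4, by unfold poly; ring⟩
  unfold AcceptsIn
  rw [hT, start_mk2, Function.iterate_add_apply,
    (((push0 (code := frCode) (s := 0) (t := 1) (b := false) rfl _ _).trans
      (push0 (s := 1) (t := 2) (b := false) rfl _ _)).trans
      (push0 (s := 2) (t := 3) (b := true) rfl _ _)).1, Function.iterate_succ_apply]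
  show O (true :: false :: false :: x) = true ↔ _
  by_cases h : O (true :: false :: false :: x) = true
  · have e : step O (mk2 frCode) (Conv.cf frCode 3 (true :: false :: false :: x) []) =
        Conv.cf frCode 4 (true :: false :: false :: x) [] :=
      step_query_yes (M := mk2 frCode) (c := Conv.cf frCode 3 (true :: false :: false :: x) [])
        (i := (0 : Fin 2)) (n := (5 : Fin 6)) (n' := (4 : Fin 6)) rfl h
    rw [e, (stay (code := frCode) (s := 4) (b := true) rfl _ _ T).1]
    exact ⟨fun _ => rfl, fun _ => h⟩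
  · have h' : O (true :: false :: false :: x) = false := by simpa using h
    have e : step O (mk2 frCode) (Conv.cf frCode 3 (true :: false :: false :: x) []) =
        Conv.cf frCode 5 (true :: false :: false :: x) [] :=
      step_query_no (M := mk2 frCode) (c := Conv.cf frCode 3 (true :: false :: false :: x) [])
        (i := (0 : Fin 2)) (n := (5 : Fin 6)) (n' := (4 : Fin 6)) rfl h'
    rw [e, (stay (code := frCode) (s := 5) (b := false) rfl _ _ T).1]
    exact ⟨fun hh => absurd hh h, fun hh => absurd (Instr.halt.inj hh) (by decide)⟩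

theorem inSigma_TT (O : Oracle) : ∀ k, InSigma k O (TT O k) := by
  intro k
  induction k with
  | zero => exact inP_TT0 O
  | succ k ih => exact ⟨_, ih, 2, fun _ => Iff.rfl⟩

theorem phInfinite {X : Oracle} {d : List Bool → Dat} (hd : ∀ i, Rq X i d) :
    PHInfinite (Or X d) := by
  intro k
  by_contra hcon
  push Not at hcon
  have h1 : ∀ j L, InSigma (k + j) (Or X d) L → InSigma k (Or X d) L := by
    intro j
    induction j with
    | zero => exact fun L h => h
    | succ j ih =>
      rintro L ⟨L', hL', c, h⟩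
      exact hcon L ⟨L', ih L' hL', c, h⟩
  have h2 : InSigma k (Or X d) (TT (Or X d) (2 * (k + 2))) := by
    refine h1 (k + 4) _ ?_
    have e : k + (k + 4) = 2 * (k + 2) := by ring
    rw [e]
    exact inSigma_TT _ _
  obtain ⟨M, c0, cs, hcs, h⟩ := (inSigma_iff _ _ _).1 h2
  obtain ⟨x, hx⟩ := hd (M, c0, cs)
  apply hx
  show _ ↔ x ∈ TT (Or X d) (2 * (cs.length + 2))
  rw [hcs]
  exact (h x).symm

theorem Or_eq_join (X : Oracle) (d : List Bool → Dat) :
    Or X d = join X (fun s => Or X d (true :: s)) := by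
  funext s
  rcases s with _ | ⟨_ | _, s⟩
  · rfl
  · rfl
  · rfl

/-- For every `X` there is `Y` such that the polynomial hierarchy relative to the join is
infinite. -/
theorem main (X : Oracle) : ∃ d, PHInfinite (Or X d) := by
  obtain ⟨d, hd⟩ := exists_data X
  exact ⟨d, phInfinite hd⟩

end ESY.PHI
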