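import Pool.Agent.Lib.MP_80aaf5_lc.PH.Count

/-!
# Alternating quantifiers against small certificates
-/

namespace ESY.PHI

open Classical

set_option linter.unusedSectionVars false

/-- every value of `f` has a certificate of size at most `s` -/
def Crt {κ : Type} (s : ℕ) (f : (κ → Bool) → Prop) : Prop :=
  ∀ z, ∃ D : Finset κ, D.card ≤ s ∧ ∀ z', (∀ i ∈ D, z' i = z i) → (f z ↔ f z')

/-- the value `true` has certificates of size at most `s` -/
def Crt1 {κ : Type} (s : ℕ) (f : (κ → Bool) → Prop) : Prop :=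
  ∀ z, f z → ∃ D : Finset κ, D.card ≤ s ∧ ∀ z', (∀ i ∈ D, z' i = z i) → f z'

section
variable {I G Q : Type}

/-- the restricted input -/
noncomputable def zr (loc : I × G → Q) (sel : I → G) (v : I → Bool) : (I × G) × Q → Bool :=
  fun b => decide (loc b.1 = b.2 ∧ (sel b.1.1 = b.1.2 → v b.1.1 = true))

theorem zr_iff (loc : I × G → Q) (sel : I → G) (v : I → Bool) (b : (I × G) × Q) :
    zr loc sel v b = true ↔ loc b.1 = b.2 ∧ (sel b.1.1 = b.1.2 → v b.1.1 = true) := by
  unfold zr
  exact decide_eq_true_iff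

variable {A : Type} [Fintype A] [Fintype I] [Fintype G] [Fintype Q]

theorem ratio_le {a b K : ℕ} (hK : 0 < K) (h : K * a ≤ b) : (a : ℝ) / b ≤ 1 / K := by
  rcases Nat.eq_zero_or_pos b with hb | hb
  · subst hb
    simp
  · rw [div_le_div_iff₀ (by exact_mod_cast hb) (by exact_mod_cast hK)]
    have : ((K * a : ℕ) : ℝ) ≤ b := by exact_mod_cast h
    push_cast at this
    linarith

/-- One round: a random restriction turns small one-sided certificates into small certificates. -/
theorem round (f : A → ((I × G) × Q → Bool) → Prop) (s K : ℕ) (hf : ∀ a, Crt1 s (f a))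
    (hK : 128 * (s + 1) ^ 3 ≤ K) (hQ : K * Fintype.card (I × G) ≤ Fintype.card Q)
    (hG : K * Fintype.card I ≤ Fintype.card G) (hG0 : 0 < Fintype.card G)
    (hQ0 : 0 < Fintype.card Q) (hA : 3 * Fintype.card A ≤ 16 ^ s) :
    ∃ (loc : I × G → Q) (sel : I → G), ∀ a, Crt s fun v => f a (zr loc sel v) := by
  have hK0 : 0 < K := lt_of_lt_of_le (by positivity) hK
  let M : ℕ := Fintype.card A * K + 1
  let S : Sys I G Q (fun _ : A => Fin M) :=
    ⟨fun a => {τ | ∃ (D : Finset ((I × G) × Q)) (z : (I × G) × Q → Bool), D.card ≤ s ∧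
      τ = D.image (fun b => (Sum.inl b, z b)) ∧ ∀ z', (∀ i ∈ D, z' i = z i) → f a z'},
      fun _ => 0, s + 1⟩
  have hS : RkOk S := by
    rintro u τ ⟨D, z, -, rfl, -⟩ u' r a h
    obtain ⟨b, -, hb⟩ := Finset.mem_image.1 h
    exact absurd hb (by simp)
  have hsz : SzOk S (fun _ => s + 1) := by
    refine ⟨?_, fun _ => le_rfl⟩
    rintro u τ ⟨D, z, hD, rfl, -⟩
    have h1 : (D.image (fun b => ((Sum.inl b : Bit I G Q (fun _ : A => Fin M)), z b))).biUnion pst
        = ∅ := by
      refine Finset.eq_empty_of_forall_notMem fun u hu => ?_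
      obtain ⟨ℓ, hℓ, hu⟩ := Finset.mem_biUnion.1 hu
      obtain ⟨b, -, rfl⟩ := Finset.mem_image.1 hℓ
      obtain ⟨r, hr⟩ := mem_pst.1 hu
      exact absurd hr (by simp)
    have h2 : (D.image (fun b => ((Sum.inl b : Bit I G Q (fun _ : A => Fin M)), z b))).card ≤
        D.card := Finset.card_image_le
    rw [h1, Finset.sum_empty]
    show _ ≤ s + 1
    omega
  have hval : ∀ (ω : TA I G Q (fun _ : A => Fin M)) (v : I → Bool),
      IsVal S ω v fun a => f a (zr ω.loc ω.sel v) := by
    intro ω v a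
    constructor
    · intro h
      obtain ⟨D, hD, hz⟩ := hf a _ h
      refine ⟨_, ⟨D, zr ω.loc ω.sel v, hD, rfl, hz⟩, fun ℓ hℓ => ?_⟩
      obtain ⟨b, -, rfl⟩ := Finset.mem_image.1 hℓ
      obtain ⟨x, q⟩ := b
      exact (zr_iff ω.loc ω.sel v (x, q)).symm
    · rintro ⟨τ, ⟨D, z, hD, rfl, hz⟩, hl⟩
      refine hz _ fun b hb => ?_
      have h1 := hl _ (Finset.mem_image.2 ⟨b, hb, rfl⟩)
      obtain ⟨x, q⟩ := b
      change _ ↔ z (x, q) = true at h1
      rw [Bool.eq_iff_iff, ← h1]
      exact zr_iff ω.loc ω.sel v (x, q)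
  obtain ⟨ω, hω⟩ := switching (S := S) hS hsz s ((s + 1) ^ 2) hG0 hQ0
    (fun _ => by rw [Fintype.card_fin]; exact Nat.succ_pos _)
    (by
      show (s + 1 + 1) * s + 1 ≤ (s + 1) ^ 2
      nlinarith) (by
      have h1 := ratio_le hK0 hQ
      have h2 := ratio_le hK0 hG
      have h3 : ∑ _u : A, 1 / (Fintype.card (Fin M) : ℝ) ≤ 1 / K := by
        rw [Finset.sum_const, Finset.card_univ, nsmul_eq_mul, Fintype.card_fin, mul_one_div]
        refine ratio_le hK0 ?_
        simp only [M]
        rw [mul_comm]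
        exact Nat.le_succ _
      have h4 : (32 * ((s + 1 : ℕ) ^ 2 : ℕ) * S.T : ℝ) * 3 ≤ K := by
        have h5 : 32 * (s + 1) ^ 2 * (s + 1) * 3 ≤ K := by nlinarith [pow_pos (Nat.succ_pos s) 3]
        have h6 : ((32 * (s + 1) ^ 2 * (s + 1) * 3 : ℕ) : ℝ) ≤ K := by exact_mod_cast h5
        have h7 : (S.T : ℝ) = s + 1 := by
          show ((s + 1 : ℕ) : ℝ) = _
          push_cast
          ring
        rw [h7]
        push_cast at h6 ⊢
        exact h6
      have h5 : (0 : ℝ) < K := by exact_mod_cast hK0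
      calc (32 * ((s + 1 : ℕ) ^ 2 : ℕ) * S.T : ℝ) * (Fintype.card (I × G) / Fintype.card Q +
            Fintype.card I / Fintype.card G + ∑ _u : A, 1 / (Fintype.card (Fin M) : ℝ))
          ≤ (32 * ((s + 1 : ℕ) ^ 2 : ℕ) * S.T : ℝ) * (1 / K + 1 / K + 1 / K) :=
            mul_le_mul_of_nonneg_left (by linarith) (by positivity)
        _ = ((32 * ((s + 1 : ℕ) ^ 2 : ℕ) * S.T : ℝ) * 3) / K := by ring
        _ ≤ 1 := by
            rw [div_le_one h5]
            exact h4) hA
  refine ⟨ω.loc, ω.sel, fun a v => ?_⟩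
  obtain ⟨D, hD, h⟩ := hω a v
  exact ⟨D, hD.le, fun v' hv' => h v' hv' _ _ (hval ω v) (hval ω v')⟩

end

/-! ### quantifier prefixes -/

section alt
variable {W : Type}

/-- `k` alternating quantifiers, after the prefix `p` -/
def Alt (S : List W → Set W) (h : List W → Prop) : ℕ → List W → Prop
  | 0, p => h p
  | k + 1, p => ∃ w ∈ S p, ¬ Alt S h k (p ++ [w])

theorem alt_succ (S : List W → Set W) (h : List W → Prop) : ∀ (k : ℕ) (p : List W),
    Alt S h (k + 1) p ↔ Alt S (fun p => ∃ w ∈ S p, ¬ h (p ++ [w])) k p := by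
  intro k
  induction k with
  | zero => intro p; rfl
  | succ k ih =>
    intro p
    show (∃ w ∈ S p, ¬ Alt S h (k + 1) (p ++ [w])) ↔ ∃ w ∈ S p, ¬ _
    refine exists_congr fun w => and_congr_right fun _ => not_congr ?_
    exact ih _

theorem alt_congr (S : List W → Set W) (h h' : List W → Prop) : ∀ (k : ℕ) (p : List W),
    (∀ q : List W, q.length = p.length + k → (h q ↔ h' q)) → (Alt S h k p ↔ Alt S h' k p) := by
  intro k
  induction k with
  | zero => intro p hp; exact hp p rfl
  | succ k ih =>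
    intro p hp
    refine exists_congr fun w => and_congr_right fun _ => not_congr ?_
    refine ih _ fun q hq => hp q ?_
    rw [hq, List.length_append, List.length_singleton]
    ring

end alt

/-! ### the hard function -/

/-- the leaves -/
def Lam (n : ℕ) : ℕ → Type
  | 0 => Unit
  | j + 1 => (Lam n j × (Fin (4 ^ j * n) → Bool)) × (Fin (2 * 4 ^ j * n) → Bool)

noncomputable instance (n : ℕ) : ∀ j, Fintype (Lam n j)
  | 0 => inferInstanceAs (Fintype Unit)
  | j + 1 =>
    have : Fintype (Lam n j) := instFintypeLam n j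
    inferInstanceAs (Fintype ((Lam n j × (Fin (4 ^ j * n) → Bool)) ×
      (Fin (2 * 4 ^ j * n) → Bool)))

theorem card_Lam (n : ℕ) : ∀ j, 2 ^ n * Fintype.card (Lam n j) = 2 ^ (4 ^ j * n) := by
  intro j
  induction j with
  | zero =>
    have : Fintype.card (Lam n 0) = 1 := Fintype.card_unit
    rw [this]
    simp
  | succ j ih =>
    have h1 : Fintype.card (Lam n (j + 1)) =
        Fintype.card (Lam n j) * 2 ^ (4 ^ j * n) * 2 ^ (2 * 4 ^ j * n) := by
      have h2 : Fintype.card (Lam n (j + 1)) = Fintype.card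
        ((Lam n j × (Fin (4 ^ j * n) → Bool)) × (Fin (2 * 4 ^ j * n) → Bool)) :=
          Fintype.card_congr (Equiv.refl _)
      rw [h2, Fintype.card_prod, Fintype.card_prod, Fintype.card_fun, Fintype.card_fun,
        Fintype.card_bool, Fintype.card_fin, Fintype.card_fin]
    rw [h1, ← mul_assoc, ← mul_assoc, ih, ← pow_add, ← pow_add]
    congr 1
    ring

/-- the function `∀ ∃ ∀ ∃ …` -/
def Fh (n : ℕ) : (j : ℕ) → (Lam n j → Bool) → Prop
  | 0, z => z () = true
  | j + 1, z => Fh n j fun i => decide (∀ g, ∃ q, z ((i, g), q) = true)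

theorem Fh_succ (n j : ℕ) (loc : Lam n j × (Fin (4 ^ j * n) → Bool) → (Fin (2 * 4 ^ j * n) → Bool))
    (sel : Lam n j → (Fin (4 ^ j * n) → Bool)) (v : Lam n j → Bool) :
    Fh n (j + 1) (zr loc sel v) ↔ Fh n j v := by
  show Fh n j _ ↔ _
  have : (fun i => decide (∀ g, ∃ q, zr loc sel v ((i, g), q) = true)) = v := by
    funext i
    rw [Bool.eq_iff_iff, decide_eq_true_iff]
    constructor
    · intro h
      obtain ⟨q, hq⟩ := h (sel i)
      exact ((zr_iff _ _ _ _).1 hq).2 rfl
    · intro h g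
      exact ⟨loc (i, g), (zr_iff _ _ _ _).2 ⟨rfl, fun _ => h⟩⟩
  rw [this]

/-- **The hierarchy theorem for small certificates.** -/
theorem noAlt {W : Type} [Fintype W] (n s : ℕ) (hs : 128 * (s + 1) ^ 3 ≤ 2 ^ n)
    (S : List W → Set W) : ∀ (k : ℕ) (h : List W → (Lam n (k + 1) → Bool) → Prop),
    3 * Fintype.card W ^ k ≤ 16 ^ s → 1 ≤ Fintype.card W →
    (∀ p : List W, p.length = k → Crt s (h p)) →
    ¬ ∀ z, (Alt S (fun p => h p z) k [] ↔ ¬ Fh n (k + 1) z) := by
  intro k
  induction k with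
  | zero =>
    intro h _ _ hc hcon
    obtain ⟨D, hD, hz⟩ := hc [] rfl (fun _ => true)
    have h1 : ∃ g : Fin (4 ^ 0 * n) → Bool, ∀ q, (((), g), q) ∉ D := by
      by_contra hne
      push Not at hne
      choose q hq using hne
      have h2 : Fintype.card (Fin (4 ^ 0 * n) → Bool) ≤ D.card := by
        rw [← Finset.card_univ]
        refine Finset.card_le_card_of_injOn (fun g => (((), g), q g)) (fun g _ => hq g) ?_
        intro g _ g' _ hgg
        exact congrArg (fun x => x.1.2) hgg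
      rw [Fintype.card_fun, Fintype.card_bool, Fintype.card_fin, pow_zero, one_mul] at h2
      have h3 : s < 2 ^ n := by
        have : s + 1 ≤ 128 * (s + 1) ^ 3 := by nlinarith [pow_pos (Nat.succ_pos s) 2]
        omega
      omega
    obtain ⟨g, hg⟩ := h1
    let z' : Lam n 1 → Bool := fun b => decide (b.1.2 ≠ g)
    have h2 := hz z' (fun b hb => by
      show decide (b.1.2 ≠ g) = true
      rw [decide_eq_true_iff]
      rintro rfl
      exact hg b.2 hb)
    have h3 : h [] (fun _ => true) ↔ ¬ Fh n 1 (fun _ => true) := hcon _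
    have h4 : h [] z' ↔ ¬ Fh n 1 z' := hcon _
    have h5 : Fh n 1 (fun _ => true) := by
      show decide _ = true
      rw [decide_eq_true_iff]
      exact fun g => ⟨fun _ => true, rfl⟩
    have h6 : ¬ Fh n 1 z' := by
      show ¬ decide _ = true
      rw [decide_eq_true_iff]
      intro h7
      obtain ⟨q, hq⟩ := h7 g
      have hq' : decide (g ≠ g) = true := hq
      simp at hq'
    rw [h4] at h2
    exact (h3.1 (h2.2 h6)) h5
  | succ k ih =>
    intro h hW hW1 hc hcon
    have hW' : 3 * Fintype.card W ^ k ≤ 16 ^ s :=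
      (Nat.mul_le_mul_left _ (Nat.pow_le_pow_right hW1 (Nat.le_succ k))).trans hW
    have hcard : Fintype.card (Lam n (k + 1) × (Fin (4 ^ (k + 1) * n) → Bool)) =
        Fintype.card (Lam n (k + 1)) * 2 ^ (4 ^ (k + 1) * n) := by
      rw [Fintype.card_prod, Fintype.card_fun, Fintype.card_bool, Fintype.card_fin]
    obtain ⟨loc, sel, hr⟩ := round (A := List.Vector W k) (I := Lam n (k + 1))
      (G := Fin (4 ^ (k + 1) * n) → Bool) (Q := Fin (2 * 4 ^ (k + 1) * n) → Bool)
      (fun a z => ∃ w ∈ S a.toList, ¬ h (a.toList ++ [w]) z) s (2 ^ n)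
      (fun a z hz => by
        obtain ⟨w, hw, hz⟩ := hz
        obtain ⟨D, hD, hD'⟩ := hc (a.toList ++ [w]) (by simp) z
        exact ⟨D, hD, fun z' hz' => ⟨w, hw, fun h1 => hz ((hD' z' hz').2 h1)⟩⟩)
      hs (by
        rw [hcard, ← mul_assoc, card_Lam, ← pow_add, Fintype.card_fun, Fintype.card_bool,
          Fintype.card_fin]
        refine le_of_eq (congrArg _ ?_)
        ring) (by
        rw [card_Lam, Fintype.card_fun, Fintype.card_bool, Fintype.card_fin])
      Fintype.card_pos Fintype.card_pos (by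
        rw [card_vector]
        exact hW')
    refine ih (fun p v => ∃ w ∈ S p, ¬ h (p ++ [w]) (zr loc sel v)) hW' hW1 ?_ ?_
    · intro p hp
      exact hr ⟨p, hp⟩
    · intro v
      have h1 := hcon (zr loc sel v)
      rw [alt_succ] at h1
      rw [h1]
      exact not_congr (Fh_succ n (k + 1) loc sel v)

end ESY.PHI
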