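import Pool.Agent.Lib.MP_80aaf5_lc.helper83.Enc

/-!
# The oracles in which every accepting computation has one code string
-/

namespace ESY.PHI

open ESY ESY.Conv

/-- the data attached to a string: a free bit, and the pad of the computation with this code -/
structure Dat : Type where
  b : Bool
  y : ℕ → Bool

/-- the first `2 l` bits of `y` -/
def pbits (y : ℕ → Bool) (l : ℕ) : List Bool := List.ofFn fun i : Fin (2 * l) => y i

/-- the pad of the padded code `u` -/
def pd (d : List Bool → Dat) (u : List Bool) : List Bool :=
  true :: false :: pbits (d u).y u.length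

theorem pbits_length (y : ℕ → Bool) (l : ℕ) : (pbits y l).length = 2 * l := by simp [pbits]

theorem pd_length (d : List Bool → Dat) (u : List Bool) : (pd d u).length = 2 * u.length + 2 := by
  simp [pd, pbits]

open Classical in
/-- the oracle with base `X`, data `d` and set `k` of accepting codes -/
noncomputable def Ok' (X : Oracle) (d : List Bool → Dat) (k : List Bool → Prop) : Oracle
  | false :: s => X s
  | true :: true :: s => match (par s).2 with
    | false :: v => decide (J v ≤ (par s).1)
    | _ => false
  | true :: false :: false :: s => (d s).b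
  | true :: false :: true :: s =>
    decide (∃ v, s = app (pd d (code v)) (false :: code v) ∧ k (code v))
  | _ => false

/-- the set of accepting codes -/
noncomputable def K (X : Oracle) (d : List Bool → Dat) : List Bool → Prop :=
  WellFounded.fix (measure List.length).wf fun u rec =>
    Acc (Ok' X d fun u' => ∃ h : u'.length < u.length, rec u' h) u

/-- the oracle -/
noncomputable def Or (X : Oracle) (d : List Bool → Dat) : Oracle := Ok' X d (K X d)

/-- two data agree below a length -/
def Agr (l : ℕ) (d d' : List Bool → Dat) : Prop := ∀ s : List Bool, s.length < l → d' s = d s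

theorem Agr.refl (l : ℕ) (d : List Bool → Dat) : Agr l d d := fun _ _ => rfl

theorem Agr.trans {l : ℕ} {d d' d'' : List Bool → Dat} (h : Agr l d d')
    (h' : Agr l d' d'') : Agr l d d'' := fun s hs => (h' s hs).trans (h s hs)

theorem Agr.symm {l : ℕ} {d d' : List Bool → Dat} (h : Agr l d d') : Agr l d' d :=
  fun s hs => (h s hs).symm

theorem Agr.mono {l l' : ℕ} {d d' : List Bool → Dat} (hl : l ≤ l') (h : Agr l' d d') :
    Agr l d d' := fun s hs => h s (hs.trans_le hl)

theorem Ok'_congr {X : Oracle} {d d' : List Bool → Dat} {k k' : List Bool → Prop} (s : List Bool)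
    (hD : ∀ u : List Bool, u.length < s.length → d' u = d u)
    (hk : ∀ u : List Bool, u.length < s.length → (k' u ↔ k u)) :
    Ok' X d' k' s = Ok' X d k s := by
  match s with
  | [] => rfl
  | false :: s => rfl
  | [true] => rfl
  | true :: true :: s => rfl
  | [true, false] => rfl
  | true :: false :: false :: s =>
    show (d' s).b = (d s).b
    rw [hD s (by simp only [List.length_cons]; omega)]
  | true :: false :: true :: s =>
    simp only [Ok']
    congr 1
    refine propext (exists_congr fun v => ?_)
    have key : ∀ (d : List Bool → Dat), s = app (pd d (code v)) (false :: code v) →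
        (code v).length < s.length := by
      intro d h
      rw [h, app_len]
      simp only [List.length_cons]
      omega
    simp only [List.length_cons] at hD hk
    constructor
    · rintro ⟨h1, h2⟩
      have h3 := key _ h1
      have h4 : pd d' (code v) = pd d (code v) := by
        unfold pd
        rw [hD _ (by omega)]
      rw [h4] at h1
      exact ⟨h1, (hk _ (by omega)).1 h2⟩
    · rintro ⟨h1, h2⟩
      have h3 := key _ h1
      have h4 : pd d' (code v) = pd d (code v) := by
        unfold pd
        rw [hD _ (by omega)]
      rw [← h4] at h1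
      exact ⟨h1, (hk _ (by omega)).2 h2⟩

theorem K_eq (X : Oracle) (d : List Bool → Dat) (u : List Bool) :
    K X d u ↔ Acc (Or X d) u := by
  unfold K
  rw [WellFounded.fix_eq]
  refine Acc_congr fun s hs => Ok'_congr s (fun _ _ => rfl) fun u' hu' => ?_
  constructor
  · rintro ⟨-, h⟩
    exact h
  · intro h
    exact ⟨by omega, h⟩

variable {X : Oracle}

/-- values below a length depend on the data below it -/
theorem agr_all {l : ℕ} {d d' : List Bool → Dat} (h : Agr l d d') :
    (∀ u : List Bool, u.length ≤ l → (K X d' u ↔ K X d u)) ∧
      ∀ s : List Bool, s.length ≤ l → Or X d' s = Or X d s := by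
  have key : ∀ n : ℕ, n ≤ l → ∀ u : List Bool, u.length = n → (K X d' u ↔ K X d u) := by
    intro n
    induction n using Nat.strong_induction_on with
    | _ n ih =>
      intro hn u hu
      rw [K_eq, K_eq]
      refine Acc_congr fun s hs => Ok'_congr s (fun u' hu' => h u' (by omega)) fun u' hu' => ?_
      exact ih u'.length (by omega) (by omega) u' rfl
  have h1 : ∀ u : List Bool, u.length ≤ l → (K X d' u ↔ K X d u) :=
    fun u hu => key _ hu u rfl
  exact ⟨h1, fun s hs => Ok'_congr s (fun u hu => h u (by omega)) fun u hu => h1 u (by omega)⟩

theorem K_code (d : List Bool → Dat) (v : List Bool) :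
    K X d (code v) ↔ Accv (Or X d) v := by
  rw [K_eq]
  constructor
  · rintro ⟨v', h, h'⟩
    rw [code_inj h]
    exact h'
  · intro h
    exact ⟨v, rfl, h⟩

theorem app_inj' {w w' x x' : List Bool} (h : app w (false :: x) = app w' (false :: x')) :
    w = w' ∧ x = x' := by
  have h1 := congrArg (un []) h
  rw [un_app', un_app'] at h1
  exact ⟨congrArg Prod.fst h1, congrArg Prod.snd h1⟩

/-- the code strings -/
theorem Or_code (d : List Bool → Dat) (w v : List Bool) :
    Or X d (true :: false :: true :: app w (false :: code v)) = true ↔
      w = pd d (code v) ∧ K X d (code v) := by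
  unfold Or
  simp only [Ok', decide_eq_true_eq]
  constructor
  · rintro ⟨v', h, h'⟩
    obtain ⟨h1, h2⟩ := app_inj' h
    rw [h2]
    exact ⟨h1, h'⟩
  · rintro ⟨rfl, h⟩
    exact ⟨v, rfl, h⟩

theorem Or_code' (d : List Bool → Dat) (s : List Bool) :
    Or X d (true :: false :: true :: s) = true ↔
      ∃ v, s = app (pd d (code v)) (false :: code v) ∧ K X d (code v) := by
  unfold Or
  simp only [Ok', decide_eq_true_eq]

theorem Or_free (d : List Bool → Dat) (s : List Bool) :
    Or X d (true :: false :: false :: s) = (d s).b := rfl

theorem Or_base (d : List Bool → Dat) (s : List Bool) : Or X d (false :: s) = X s := rfl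

theorem Or_ruler (d : List Bool → Dat) (i : ℕ) (v : List Bool) :
    Or X d (List.replicate (i + 2) true ++ false :: false :: v) = decide (J v ≤ i) := by
  rw [List.replicate_succ, List.replicate_succ, List.cons_append, List.cons_append]
  show Ok' X d _ _ = _
  simp only [Ok', par_rep]

end ESY.PHI
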