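import Pool.Agent.Lib.MP_80aaf5_lc.PH.Defs
import Pool.Agent.Lib.MP_80aaf5_lc.PH.Rounds
import Pool.Agent.Lib.MP_80aaf5_lc.PH.World

/-!
# The hard languages, and alternating machines
-/

namespace ESY.PHI

open ESY ESY.Conv

theorem pair_length (x w : List Bool) : (pair x w).length = 2 * x.length + 1 + w.length := by
  simp [pair]; ring

theorem pair_inj {x w x' w' : List Bool} (h : pair x w = pair x' w') : x = x' ∧ w = w' := by
  have h1 := congrArg par h
  unfold pair at h1
  rw [par_rep, par_rep] at h1
  obtain ⟨h2, h3⟩ := Prod.mk.inj h1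
  exact List.append_inj h3 h2

/-- nested pairs -/
def nest (x : List Bool) (ws : List (List Bool)) : List Bool := ws.foldl pair x

theorem nest_append (x : List Bool) (ws : List (List Bool)) (w : List Bool) :
    nest x (ws ++ [w]) = pair (nest x ws) w := by
  simp [nest]

theorem nest_inj (x : List Bool) : ∀ (ws ws' : List (List Bool)), ws.length = ws'.length →
    nest x ws = nest x ws' → ws = ws' := by
  intro ws
  induction ws using List.reverseRecOn with
  | nil =>
    intro ws' h _
    exact (List.length_eq_zero_iff.1 h.symm).symm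
  | append_singleton ws w ih =>
    intro ws' h h'
    rcases List.eq_nil_or_concat ws' with rfl | ⟨ws'', w', rfl⟩
    · simp at h
    · rw [List.concat_eq_append] at h h' ⊢
      rw [nest_append, nest_append] at h'
      obtain ⟨h1, h2⟩ := pair_inj h'
      simp only [List.length_append, List.length_singleton, Nat.add_right_cancel_iff] at h
      rw [ih ws'' h h1, h2]

theorem nest_length (x : List Bool) : ∀ ws : List (List Bool),
    x.length + ws.length ≤ (nest x ws).length ∧
      (ws ≠ [] → 2 * x.length + 1 ≤ (nest x ws).length) := by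
  intro ws
  induction ws using List.reverseRecOn with
  | nil => exact ⟨le_rfl, fun h => absurd rfl h⟩
  | append_singleton ws w ih =>
    rw [nest_append, pair_length, List.length_append, List.length_singleton]
    have := ih.1
    exact ⟨by omega, fun _ => by omega⟩

/-- the hard languages: alternating quantifiers before the free part -/
def TT (O : Oracle) : ℕ → Set (List Bool)
  | 0 => {s | O (true :: false :: false :: s) = true}
  | k + 1 => {x | ∃ w : List Bool, w.length ≤ poly 2 x.length ∧ pair x w ∉ TT O k}

/-- truncation or padding to length `m` -/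
def tr (m : ℕ) (w : List Bool) : Fin m → Bool := fun i => w.getD i false

theorem tr_surj {m : ℕ} (y : Fin m → Bool) : tr m (List.ofFn y) = y := by
  funext i
  simp [tr]

/-- the leaf given by a list of strings -/
def leaf (n : ℕ) : (j : ℕ) → List (List Bool) → Lam n j
  | 0, _ => ()
  | j + 1, ws => ((leaf n j ws, tr (4 ^ j * n) (ws.getD (2 * j) [])),
      tr (2 * 4 ^ j * n) (ws.getD (2 * j + 1) []))

theorem leaf_append (n : ℕ) : ∀ (j : ℕ) (ws ws' : List (List Bool)), 2 * j ≤ ws.length →
    leaf n j (ws ++ ws') = leaf n j ws := by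
  intro j
  induction j with
  | zero => intro ws ws' _; rfl
  | succ j ih =>
    intro ws ws' h
    simp only [leaf]
    rw [ih ws ws' (by omega), List.getD_append _ _ _ _ (by omega),
      List.getD_append _ _ _ _ (by omega)]

theorem leaf_two (n j : ℕ) (ws : List (List Bool)) (w w' : List Bool) (h : ws.length = 2 * j) :
    leaf n (j + 1) (ws ++ [w] ++ [w']) =
      ((leaf n j ws, tr (4 ^ j * n) w), tr (2 * 4 ^ j * n) w') := by
  simp only [leaf]
  rw [List.append_assoc, leaf_append n j ws _ (by omega)]
  have h1 : (ws ++ ([w] ++ [w'])).getD (2 * j) [] = w := by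
    rw [List.getD_append_right _ _ _ _ (by omega)]
    simp [h]
  have h2 : (ws ++ ([w] ++ [w'])).getD (2 * j + 1) [] = w' := by
    rw [List.getD_append_right _ _ _ _ (by omega)]
    have h3 : 2 * j + 1 - ws.length = 1 := by omega
    simp [h3]
  rw [h1, h2]

theorem poly_mono {c n m : ℕ} (h : n ≤ m) : poly c n ≤ poly c m :=
  Nat.add_le_add_right (Nat.pow_le_pow_left h c) c

/-- the value of the hard language at the end of a stage -/
theorem eval {O : Oracle} {n : ℕ} {x : List Bool} (hx : x.length = n) : ∀ (m i : ℕ)
    (z : Lam n m → Bool), 2 * 4 ^ m ≤ n →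
    (∀ ws : List (List Bool), ws.length = 2 * m →
      (nest x ws ∈ TT O i ↔ z (leaf n m ws) = false)) →
    (x ∈ TT O (2 * m + i) ↔ ¬ Fh n m z) := by
  classical
  intro m
  induction m with
  | zero =>
    intro i z _ h
    have h1 := h [] rfl
    rw [Nat.mul_zero, Nat.zero_add]
    exact h1.trans (Bool.not_eq_true _).symm.to_iff
  | succ m ih =>
    intro i z hn h
    have hn' : 2 * 4 ^ m ≤ n := by
      rw [pow_succ] at hn
      omega
    have e : 2 * (m + 1) + i = 2 * m + (i + 2) := by ring
    rw [e]
    refine ih (i + 2) (fun j => decide (∀ g, ∃ q, z ((j, g), q) = true)) hn' fun ws hws => ?_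
    have hlen : ∀ (y : List Bool), n ≤ y.length → 2 * 4 ^ m * n ≤ poly 2 y.length := by
      intro y hy
      have h1 : 2 * 4 ^ m * n ≤ n * n := Nat.mul_le_mul_right _ hn'
      have h2 : n * n ≤ y.length * y.length := Nat.mul_le_mul hy hy
      unfold poly
      nlinarith
    have hl := (nest_length x ws).1
    have e2 : (nest x ws ∈ TT O (i + 2)) ↔ ∃ w : List Bool, w.length ≤ poly 2 (nest x ws).length ∧
        ∀ w' : List Bool, w'.length ≤ poly 2 (nest x (ws ++ [w])).length →
          nest x (ws ++ [w] ++ [w']) ∈ TT O i := by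
      show (∃ w : List Bool, w.length ≤ poly 2 (nest x ws).length ∧
        ¬ ∃ w' : List Bool, w'.length ≤ poly 2 (pair (nest x ws) w).length ∧
          ¬ pair (pair (nest x ws) w) w' ∈ TT O i) ↔ _
      refine exists_congr fun w => and_congr_right fun _ => ?_
      push Not
      simp only [nest_append]
    rw [e2]
    have e3 : ∀ w w' : List Bool, nest x (ws ++ [w] ++ [w']) ∈ TT O i ↔
        z ((leaf n m ws, tr (4 ^ m * n) w), tr (2 * 4 ^ m * n) w') = false := by
      intro w w'
      rw [h (ws ++ [w] ++ [w']) (by
        simp only [List.length_append, List.length_singleton, hws]; ring),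
        leaf_two n m ws w w' hws]
    rw [decide_eq_false_iff_not]
    push Not
    constructor
    · rintro ⟨w, -, hw⟩
      refine ⟨tr (4 ^ m * n) w, fun q => ?_⟩
      have h1 := (e3 w (List.ofFn q)).1 (hw _ (by
        rw [List.length_ofFn, nest_append]
        refine hlen _ ?_
        rw [pair_length]
        omega))
      rw [tr_surj] at h1
      rw [h1]
      decide
    · rintro ⟨g, hg⟩
      refine ⟨List.ofFn g, ?_, fun w' _ => ?_⟩
      · rw [List.length_ofFn]
        have := hlen (nest x ws) (by omega)
        refine le_trans ?_ this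
        exact Nat.mul_le_mul_right _ (by omega)
      · rw [e3, tr_surj]
        exact (Bool.not_eq_true _).mp (hg _)

/-! ### alternating machines -/

/-- acceptance by a machine after alternating quantifiers -/
def Sem (O : Oracle) (M : Machine) (c0 : ℕ) : List ℕ → List Bool → Prop
  | [], x => AcceptsIn O M x [] (poly c0 x.length)
  | c :: cs, x => ∃ w : List Bool, w.length ≤ poly c x.length ∧ ¬ Sem O M c0 cs (pair x w)

theorem inSigma_iff (O : Oracle) : ∀ (k : ℕ) (L : Set (List Bool)), InSigma k O L ↔
    ∃ M c0 cs, cs.length = k ∧ ∀ x, x ∈ L ↔ Sem O M c0 cs x := by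
  intro k
  induction k with
  | zero =>
    intro L
    constructor
    · rintro ⟨M, c, h⟩
      exact ⟨M, c, [], rfl, h⟩
    · rintro ⟨M, c, cs, hcs, h⟩
      obtain rfl := List.length_eq_zero_iff.1 hcs
      exact ⟨M, c, h⟩
  | succ k ih =>
    intro L
    constructor
    · rintro ⟨L', hL', c, h⟩
      obtain ⟨M, c0, cs, hcs, h'⟩ := (ih L').1 hL'
      refine ⟨M, c0, c :: cs, by simp [hcs], fun x => (h x).trans ?_⟩
      exact exists_congr fun w => and_congr_right fun _ => not_congr (h' _)
    · rintro ⟨M, c0, _ | ⟨c, cs⟩, hcs, h⟩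
      · simp at hcs
      · simp only [List.length_cons, Nat.add_right_cancel_iff] at hcs
        exact ⟨{x | Sem O M c0 cs x}, (ih _).2 ⟨M, c0, cs, hcs, fun _ => Iff.rfl⟩, c, h⟩

/-- bound for the lengths -/
def bnd : List ℕ → ℕ → ℕ
  | [], l => l
  | c :: cs, l => bnd cs (2 * l + 1 + poly c l)

theorem le_bnd : ∀ (cs : List ℕ) (l : ℕ), l ≤ bnd cs l := by
  intro cs
  induction cs with
  | nil => intro l; exact le_rfl
  | cons c cs ih => intro l; exact le_trans (by omega) (ih _)

/-- short strings -/
abbrev Wd (B : ℕ) : Type := {w : List Bool // w.length ≤ B}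

noncomputable instance (B : ℕ) : Fintype (Wd B) :=
  have : Finite (Wd B) := (List.finite_length_le Bool B).to_subtype
  Fintype.ofFinite _

/-- the allowed next strings -/
def nxt {B : ℕ} (cs : List ℕ) (x : List Bool) (p : List (Wd B)) : Set (Wd B) :=
  {w | w.1.length ≤ poly (cs.getD p.length 0) (nest x (p.map Subtype.val)).length}

theorem sem_alt {O : Oracle} {M : Machine} {c0 B : ℕ} (cs : List ℕ) (x : List Bool) :
    ∀ (cs' pre : List ℕ) (p : List (Wd B)) (l : ℕ), cs = pre ++ cs' → pre.length = p.length →
    (nest x (p.map Subtype.val)).length ≤ l → bnd cs' l ≤ B →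
    (Sem O M c0 cs' (nest x (p.map Subtype.val)) ↔
      Alt (nxt cs x) (fun p => AcceptsIn O M (nest x (p.map Subtype.val)) []
        (poly c0 (nest x (p.map Subtype.val)).length)) cs'.length p) := by
  intro cs'
  induction cs' with
  | nil => intro pre p l _ _ _ _; exact Iff.rfl
  | cons c cs' ih =>
    intro pre p l hcs hpre hl hB
    have hc : cs.getD p.length 0 = c := by
      rw [hcs, ← hpre, List.getD_append_right _ _ _ _ le_rfl]
      simp
    have key : ∀ w : Wd B, w.1.length ≤ poly c (nest x (p.map Subtype.val)).length →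
        (Sem O M c0 cs' (pair (nest x (p.map Subtype.val)) w.1) ↔
          Alt (nxt cs x) (fun p => AcceptsIn O M (nest x (p.map Subtype.val)) []
            (poly c0 (nest x (p.map Subtype.val)).length)) cs'.length (p ++ [w])) := by
      intro w hw
      have h1 := ih (pre ++ [c]) (p ++ [w]) (2 * l + 1 + poly c l) (by simp [hcs])
        (by simp [hpre]) (by
          rw [List.map_append, List.map_singleton, nest_append, pair_length]
          have := poly_mono (c := c) hl
          omega) hB
      rw [List.map_append, List.map_singleton, nest_append] at h1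
      exact h1
    show (∃ w : List Bool, w.length ≤ poly c _ ∧ ¬ _) ↔ ∃ w ∈ nxt cs x p, ¬ _
    constructor
    · rintro ⟨w, hw, hs⟩
      have h2 : w.length ≤ B := by
        have h3 := poly_mono (c := c) hl
        have h4 := le_bnd cs' (2 * l + 1 + poly c l)
        have h5 : bnd (c :: cs') l = bnd cs' (2 * l + 1 + poly c l) := rfl
        omega
      refine ⟨⟨w, h2⟩, ?_, fun h => hs ((key ⟨w, h2⟩ hw).2 h)⟩
      show w.length ≤ _
      rw [hc]
      exact hw
    · rintro ⟨w, hw, hs⟩
      have hw' : w.1.length ≤ poly c (nest x (p.map Subtype.val)).length := by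
        have : w.1.length ≤ poly (cs.getD p.length 0) _ := hw
        rwa [hc] at this
      exact ⟨w.1, hw', fun h => hs ((key w hw').1 h)⟩

/-- the bound for the lengths of all nested pairs -/
def nl (B n : ℕ) : ℕ → ℕ
  | 0 => n
  | k + 1 => 2 * nl B n k + 1 + B

theorem nest_le {B : ℕ} (x : List Bool) : ∀ p : List (Wd B),
    (nest x (p.map Subtype.val)).length ≤ nl B x.length p.length := by
  intro p
  induction p using List.reverseRecOn with
  | nil => exact le_rfl
  | append_singleton p w ih =>
    rw [List.map_append, List.map_singleton, nest_append, pair_length, List.length_append,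
      List.length_singleton]
    have := w.2
    show _ ≤ 2 * nl B x.length p.length + 1 + B
    omega

/-! ### locality -/

theorem sem_local (M : Machine) (c0 : ℕ) : ∀ (cs : List ℕ) (x : List Bool), ∃ L : ℕ,
    ∀ O O' : Oracle, (∀ s : List Bool, s.length ≤ L → O' s = O s) →
      (Sem O' M c0 cs x ↔ Sem O M c0 cs x) := by
  intro cs
  induction cs with
  | nil =>
    intro x
    refine ⟨x.length + poly c0 x.length, fun O O' h => ?_⟩
    show AcceptsIn O' M x [] _ ↔ AcceptsIn O M x [] _
    unfold AcceptsIn
    rw [run_congr _ _ fun s hs => h s ?_]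
    exact asked_len O M _ _ _ (start_len M x [] _ le_rfl (Nat.zero_le _)) s hs
  | cons c cs ih =>
    intro x
    choose L hL using ih
    have hfin := List.finite_length_le Bool (poly c x.length)
    refine ⟨hfin.toFinset.sup fun w => L (pair x w), fun O O' h => ?_⟩
    refine exists_congr fun w => and_congr_right fun hw => not_congr ?_
    refine hL _ O O' fun s hs => h s (hs.trans ?_)
    exact Finset.le_sup (f := fun w => L (pair x w)) (by simpa using hw)

theorem tt_local : ∀ (k : ℕ) (x : List Bool), ∃ L : ℕ,
    ∀ O O' : Oracle, (∀ s : List Bool, s.length ≤ L → O' s = O s) →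
      (x ∈ TT O' k ↔ x ∈ TT O k) := by
  intro k
  induction k with
  | zero =>
    intro x
    refine ⟨x.length + 3, fun O O' h => ?_⟩
    show O' _ = true ↔ O _ = true
    rw [h _ (by simp)]
  | succ k ih =>
    intro x
    choose L hL using ih
    have hfin := List.finite_length_le Bool (poly 2 x.length)
    refine ⟨hfin.toFinset.sup fun w => L (pair x w), fun O O' h => ?_⟩
    refine exists_congr fun w => and_congr_right fun hw => not_congr ?_
    refine hL _ O O' fun s hs => h s (hs.trans ?_)
    exact Finset.le_sup (f := fun w => L (pair x w)) (by simpa using hw)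

end ESY.PHI
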