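import Pool.Agent.Lib.MP_80aaf5_lc.PH.Enc

/-!
# The labels of the erased coordinates, and injectivity of the encoding
-/

namespace ESY.PHI

open Classical

set_option linter.unusedSectionVars false

variable {I G Q U : Type} {P : U → Type}

/-- the number of a literal of a certificate -/
noncomputable def idx (c : Cer I G Q P) (ℓ : Lit I G Q P) : ℕ :=
  if h : ℓ ∈ lits c then ((lits c).equivFin ⟨ℓ, h⟩).val else 0

theorem idx_lt {c : Cer I G Q P} {ℓ : Lit I G Q P} (h : ℓ ∈ lits c) : idx c ℓ < (lits c).card := by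
  unfold idx
  rw [dif_pos h]
  exact ((lits c).equivFin ⟨ℓ, h⟩).isLt

theorem idx_inj {c : Cer I G Q P} {ℓ ℓ' : Lit I G Q P} (h : ℓ ∈ lits c) (h' : ℓ' ∈ lits c)
    (he : idx c ℓ = idx c ℓ') : ℓ = ℓ' := by
  unfold idx at he
  rw [dif_pos h, dif_pos h'] at he
  exact congrArg Subtype.val ((lits c).equivFin.injective (Fin.ext he))

/-- the answer to an event -/
def value (v : I → Bool) : Lit I G Q P → Bool
  | (.inl ((i, _), _), _) => v i
  | _ => false

variable [Finite I] [Finite G] [Finite Q] [Finite U] [∀ u, Finite (P u)]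
variable (S : Sys I G Q P)

/-- the label that an event gives to its coordinate -/
noncomputable def mk (m : ℕ) (o : Option (Cer I G Q P)) (v : I → Bool) (ℓ : Lit I G Q P) :
    ℕ × ℕ × Bool := (m, o.elim 0 (fun c => idx c ℓ), value v ℓ)

/-- the labels given in `m` steps -/
noncomputable def lab (ω : TA I G Q P) (v : I → Bool) : ℕ → St I U → Crd I G U →
    Option (ℕ × ℕ × Bool)
  | 0, _, _ => none
  | m + 1, σ, γ =>
    if h : ∃ ℓ ∈ sev S (pa ω) σ, crd ℓ = γ then some (mk m (cur S (pa ω) σ) v h.choose)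
    else lab ω v m (stp S ω v σ) γ

variable {S}

theorem crd_inj {ω : TA I G Q P} {σ : St I U} {ℓ ℓ' : Lit I G Q P}
    (h : ℓ ∈ sev S (pa ω) σ) (h' : ℓ' ∈ sev S (pa ω) σ) (he : crd ℓ = crd ℓ') : ℓ = ℓ' := by
  obtain ⟨-, -, -, h1⟩ := mem_sev.1 h
  obtain ⟨-, -, -, h1'⟩ := mem_sev.1 h'
  rcases ℓ with ⟨⟨x, q⟩ | ⟨u, r⟩, _ | _⟩ <;> rcases ℓ' with ⟨⟨x', q'⟩ | ⟨u', r'⟩, _ | _⟩ <;>
    first
      | exact h1.elim
      | exact h1'.elim
      | (exfalso; simp only [crd, reduceCtorEq, Sum.inr.injEq] at he; done)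
      | skip
  · obtain rfl : x = x' := Sum.inl.inj he
    have h2 := pa_loc.1 h1.1
    have h3 := pa_loc.1 h1'.1
    rw [← h2, ← h3]
  · have h4 : x.1 = x'.1 := Sum.inl.inj (Sum.inr.inj he)
    have h2 := pa_loc.1 h1.1
    have h3 := pa_loc.1 h1'.1
    have h5 := pa_sel.1 h1.2.1
    have h6 := pa_sel.1 h1'.2.1
    have h7 : x = x' := Prod.ext h4 (by rw [← h5, ← h6, h4])
    subst h7
    rw [← h2, ← h3]
  · obtain rfl : u = u' := Sum.inr.inj (Sum.inr.inj he)
    have h2 := pa_pad.1 h1.1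
    have h3 := pa_pad.1 h1'.1
    rw [← h2, ← h3]

theorem lab_pos {ω : TA I G Q P} {v : I → Bool} {m : ℕ} {σ : St I U} {ℓ : Lit I G Q P}
    (h : ℓ ∈ sev S (pa ω) σ) :
    lab S ω v (m + 1) σ (crd ℓ) = some (mk m (cur S (pa ω) σ) v ℓ) := by
  have hx : ∃ ℓ' ∈ sev S (pa ω) σ, crd ℓ' = crd ℓ := ⟨ℓ, h, rfl⟩
  have h1 : hx.choose = ℓ := crd_inj hx.choose_spec.1 h hx.choose_spec.2
  simp only [lab]
  rw [dif_pos hx, h1]

theorem lab_neg {ω : TA I G Q P} {v : I → Bool} {m : ℕ} {σ : St I U} {γ : Crd I G U}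
    (h : ¬ ∃ ℓ ∈ sev S (pa ω) σ, crd ℓ = γ) :
    lab S ω v (m + 1) σ γ = lab S ω v m (stp S ω v σ) γ := by
  simp only [lab]
  rw [dif_neg h]

theorem lab_free (hS : RkOk S) {ω : TA I G Q P} {v : I → Bool} : ∀ (m : ℕ) (σ : St I U)
    (γ : Crd I G U), lab S ω v m σ γ ≠ none → free ω σ γ := by
  intro m
  induction m with
  | zero => intro σ γ h; exact absurd rfl h
  | succ m ih =>
    intro σ γ h
    by_cases h1 : ∃ ℓ ∈ sev S (pa ω) σ, crd ℓ = γ
    · obtain ⟨ℓ, h2, rfl⟩ := h1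
      exact free_event hS h2
    · rw [lab_neg h1] at h
      exact free_mono (ih _ _ h)

theorem lab_lt {ω : TA I G Q P} {v : I → Bool} : ∀ (m : ℕ) (σ : St I U)
    (γ : Crd I G U) (y : ℕ × ℕ × Bool), lab S ω v m σ γ = some y → y.1 < m ∧ y.2.1 < S.T := by
  intro m
  induction m with
  | zero => intro σ γ y h; exact absurd h (by simp [lab])
  | succ m ih =>
    intro σ γ y h
    by_cases h1 : ∃ ℓ ∈ sev S (pa ω) σ, crd ℓ = γ
    · obtain ⟨ℓ, h2, rfl⟩ := h1
      rw [lab_pos h2] at h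
      rw [← Option.some.inj h]
      obtain ⟨c, h3, h4, -⟩ := mem_sev.1 h2
      obtain ⟨_, h5⟩ := cur_pot h3
      have h6 := h5.valid.card
      have h7 := idx_lt h4
      unfold mk
      rw [h3]
      simp only [Option.elim]
      omega
    · rw [lab_neg h1] at h
      have := ih _ _ _ h
      omega

/-- the coordinates of events are not free in the next state -/
theorem not_free_event {ω : TA I G Q P} {v : I → Bool} {σ : St I U} {ℓ : Lit I G Q P}
    (h : ℓ ∈ sev S (pa ω) σ) : ¬ free ω (stp S ω v σ) (crd ℓ) := by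
  intro hf
  obtain ⟨c, hc, hℓ, he⟩ := mem_sev.1 h
  rcases ℓ with ⟨⟨x, q⟩ | ⟨u, r⟩, _ | _⟩
  · exact (stp_kI_none hf.2).2 _ h x.2 q false rfl
  · exact (stp_kI_none hf).2 _ h x.2 q true rfl
  · exact ((stp_kU_none hf.1 hf.2).2.2 c hc).2 r h
  · exact he.elim

omit [Finite I] [Finite G] [Finite Q] [Finite U] [∀ u, Finite (P u)] in
theorem upd_congr {σ : St I U} {v v' : I → Bool} {g : U} {o : Option (Cer I G Q P)}
    {e : Finset (Lit I G Q P)} (h : ∀ ℓ ∈ e, value v ℓ = value v' ℓ) :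
    upd σ v g o e = upd σ v' g o e := by
  cases o with
  | none => rfl
  | some c =>
    simp only [upd]
    split_ifs with h1
    · rfl
    · congr 1
      funext i
      split_ifs with h2
      · obtain ⟨ℓ, h3, g', q, a, rfl⟩ := h2
        exact congrArg some (h _ h3)
      · rfl

theorem er_congr {ω ω' : TA I G Q P} {E : Set (Crd I G U)} (h : ∀ γ, γ ∉ E → ω γ = ω' γ) :
    er ω E = er ω' E := by
  unfold er
  congr 1
  · funext x
    split_ifs with h1
    · rfl
    · exact congrArg some (h _ h1)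
  · funext x
    split_ifs with h1
    · rfl
    · exact congrArg some (h _ h1)
  · funext x
    split_ifs with h1
    · rfl
    · exact congrArg some (h _ h1)

/-- events of the first run are events of the second one -/
theorem sev_sub {ω ω' : TA I G Q P} {v v' : I → Bool} {m : ℕ} {σ : St I U}
    (hcur : cur S (pa ω) σ = cur S (pa ω') σ)
    (hl : ∀ γ, lab S ω v (m + 1) σ γ = lab S ω' v' (m + 1) σ γ) {ℓ : Lit I G Q P}
    (h : ℓ ∈ sev S (pa ω) σ) : ℓ ∈ sev S (pa ω') σ ∧ value v ℓ = value v' ℓ := by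
  have h1 := hl (crd ℓ)
  rw [lab_pos h] at h1
  by_cases h2 : ∃ ℓ' ∈ sev S (pa ω') σ, crd ℓ' = crd ℓ
  · obtain ⟨ℓ', h3, h4⟩ := h2
    rw [← h4, lab_pos h3] at h1
    obtain ⟨c, h5, h6, -⟩ := mem_sev.1 h
    obtain ⟨c', h5', h6', -⟩ := mem_sev.1 h3
    have h7 : c' = c := by
      rw [← hcur, h5] at h5'
      exact (Option.some.inj h5').symm
    subst h7
    unfold mk at h1
    rw [h5, h5'] at h1
    simp only [Option.elim, Option.some.injEq, Prod.mk.injEq, true_and] at h1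
    have h8 := idx_inj h6 h6' h1.1
    subst h8
    exact ⟨h3, h1.2⟩
  · rw [lab_neg h2] at h1
    have := (lab_lt _ _ _ _ h1.symm).1
    simp [mk] at this

/-- **Injectivity of the encoding.** -/
theorem enc_inj (hS : RkOk S) : ∀ (m : ℕ) (σ : St I U) (ω ω' : TA I G Q P) (v v' : I → Bool),
    (∀ γ, lab S ω v m σ γ = lab S ω' v' m σ γ) →
    (∀ γ, lab S ω v m σ γ = none → ω γ = ω' γ) → ω = ω' := by
  intro m
  induction m with
  | zero => intro σ ω ω' v v' _ h; exact funext fun γ => h γ rfl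
  | succ m ih =>
    intro σ ω ω' v v' hl ha
    have hE : ∀ (ω : TA I G Q P) (v : I → Bool), ∀ γ ∈ {γ | lab S ω v (m + 1) σ γ ≠ none},
        (∃ ℓ ∈ sev S (pa ω) σ, crd ℓ = γ) ∨ free ω (stp S ω v σ) γ := by
      intro ω v γ hγ
      by_cases h1 : ∃ ℓ ∈ sev S (pa ω) σ, crd ℓ = γ
      · exact Or.inl h1
      · right
        refine lab_free hS (v := v) m _ γ ?_
        rw [← lab_neg h1]
        exact hγ
    have hE' : ∀ (ω : TA I G Q P) (v : I → Bool), ∀ ℓ ∈ sev S (pa ω) σ,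
        crd ℓ ∈ {γ | lab S ω v (m + 1) σ γ ≠ none} := by
      intro ω v ℓ h
      show lab S ω v (m + 1) σ (crd ℓ) ≠ none
      rw [lab_pos h]
      simp
    have hEE : {γ | lab S ω v (m + 1) σ γ ≠ none} = {γ | lab S ω' v' (m + 1) σ γ ≠ none} := by
      ext γ
      show _ ≠ _ ↔ _ ≠ _
      rw [hl γ]
    have v1 := view (hE ω v) (fun γ hγ => lab_free hS _ _ _ hγ) (hE' ω v)
    have v2 := view (hE ω' v') (fun γ hγ => lab_free hS _ _ _ hγ) (hE' ω' v')
    have hcur : cur S (pa ω) σ = cur S (pa ω') σ := by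
      rw [← v1, ← v2, ← hEE]
      congr 1
      refine er_congr fun γ hγ => ha γ ?_
      by_contra h
      exact hγ h
    have s1 : ∀ ℓ ∈ sev S (pa ω) σ, ℓ ∈ sev S (pa ω') σ ∧ value v ℓ = value v' ℓ :=
      fun ℓ h => sev_sub hcur hl h
    have s2 : ∀ ℓ ∈ sev S (pa ω') σ, ℓ ∈ sev S (pa ω) σ := fun ℓ h =>
      (sev_sub hcur.symm (fun γ => (hl γ).symm) h).1
    have hsev : sev S (pa ω) σ = sev S (pa ω') σ :=
      Finset.Subset.antisymm (fun ℓ h => (s1 ℓ h).1) s2
    have hstp : stp S ω v σ = stp S ω' v' σ := by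
      unfold stp
      split_ifs with h1
      · rw [hcur, hsev]
        exact upd_congr fun ℓ h => (s1 ℓ (hsev ▸ h)).2
      · rfl
    refine ih (stp S ω v σ) ω ω' v v' (fun γ => ?_) (fun γ hγ => ?_)
    · by_cases h1 : ∃ ℓ ∈ sev S (pa ω) σ, crd ℓ = γ
      · obtain ⟨ℓ, h2, rfl⟩ := h1
        have h3 : lab S ω v m (stp S ω v σ) (crd ℓ) = none := by
          by_contra h4
          exact not_free_event h2 (lab_free hS _ _ _ h4)
        have h3' : lab S ω' v' m (stp S ω v σ) (crd ℓ) = none := by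
          by_contra h4
          rw [hstp] at h4
          exact not_free_event (s1 ℓ h2).1 (lab_free hS _ _ _ h4)
        rw [h3, h3']
      · rw [← lab_neg h1, hl γ, hstp]
        exact lab_neg (by rw [← hsev]; exact h1)
    · by_cases h1 : ∃ ℓ ∈ sev S (pa ω) σ, crd ℓ = γ
      · obtain ⟨ℓ, h2, rfl⟩ := h1
        obtain ⟨-, -, -, h3⟩ := mem_sev.1 h2
        obtain ⟨-, -, -, h4⟩ := mem_sev.1 (s1 ℓ h2).1
        rcases ℓ with ⟨⟨x, q⟩ | ⟨u, r⟩, _ | _⟩
        · exact (pa_loc.1 h3.1).trans (pa_loc.1 h4.1).symm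
        · exact (pa_sel.1 h3.2.1).trans (pa_sel.1 h4.2.1).symm
        · exact (pa_pad.1 h3.1).trans (pa_pad.1 h4.1).symm
        · exact h3.elim
      · refine ha γ ?_
        rw [lab_neg h1]
        exact hγ

end ESY.PHI
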