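import Mathlib

/-!
# The evaluation procedure for nested, uniquely coded statements
-/

namespace ESY.PHI

open Classical

/-- the bits of the oracle: the entries of the blocks and the pads of the statements -/
abbrev Bit (I G Q : Type) {U : Type} (P : U → Type) : Type := ((I × G) × Q) ⊕ (Σ u, P u)

/-- literals -/
abbrev Lit (I G Q : Type) {U : Type} (P : U → Type) : Type := Bit I G Q P × Bool

/-- the coordinates of an assignment: locations, selectors, pads -/
abbrev Crd (I G U : Type) : Type := (I × G) ⊕ (I ⊕ U)

/-- partial assignments -/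
structure PA (I G Q : Type) {U : Type} (P : U → Type) : Type where
  loc : I × G → Option Q
  sel : I → Option G
  pad : (u : U) → Option (P u)

/-- states of the procedure: what is known, and what has to be found out -/
structure St (I U : Type) : Type where
  kI : I → Option Bool
  kU : U → Option Bool
  goals : Finset U

/-- a certificate: a set of statements with a term for each -/
abbrev Cer (I G Q : Type) {U : Type} (P : U → Type) : Type :=
  Finset U × (U → Finset (Lit I G Q P))

variable {I G Q U : Type} {P : U → Type}

/-- the data: the terms of the statements, the ranks, the bound for the certificates -/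
structure Sys (I G Q : Type) {U : Type} (P : U → Type) : Type where
  terms : U → Set (Finset (Lit I G Q P))
  rk : U → ℕ
  T : ℕ

/-- the literals of a certificate -/
noncomputable def lits (c : Cer I G Q P) : Finset (Lit I G Q P) := c.1.biUnion c.2

/-- the position `x` is starred -/
def star (ω : PA I G Q P) (x : I × G) : Prop := ω.sel x.1 = some x.2

/-- the literal is possible -/
def Ok (ω : PA I G Q P) (σ : St I U) : Lit I G Q P → Prop
  | (.inl (x, q), true) => ω.loc x = some q ∧ (star ω x → σ.kI x.1 ≠ some false)
  | (.inl (x, q), false) => ¬ ω.loc x = some q ∨ (star ω x ∧ σ.kI x.1 ≠ some true)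
  | (.inr ⟨u, r⟩, true) => ω.pad u = some r ∧ σ.kU u ≠ some false
  | (.inr ⟨u, r⟩, false) => ¬ ω.pad u = some r ∨ σ.kU u ≠ some true

/-- the literal is an event: something unknown has to be looked up -/
def Ev (ω : PA I G Q P) (σ : St I U) : Lit I G Q P → Prop
  | (.inl (x, q), _) => ω.loc x = some q ∧ star ω x ∧ σ.kI x.1 = none
  | (.inr _, true) => False
  | (.inr ⟨u, r⟩, false) => ω.pad u = some r ∧ σ.kU u = none

/-- the coordinate that is erased -/
def crd : Lit I G Q P → Crd I G U
  | (.inl (x, _), true) => .inr (.inl x.1)
  | (.inl (x, _), false) => .inl x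
  | (.inr ⟨u, _⟩, _) => .inr (.inr u)

/-- the conditions on a certificate that do not depend on the assignment -/
structure Valid (S : Sys I G Q P) (g : U) (c : Cer I G Q P) : Prop where
  mem : g ∈ c.1
  term : ∀ b ∈ c.1, c.2 b ∈ S.terms b
  rk : ∀ b ∈ c.1, S.rk b ≤ S.rk g
  cons : ∀ β, ¬ ((β, true) ∈ lits c ∧ (β, false) ∈ lits c)
  card : c.1.card + (lits c).card ≤ S.T

/-- potential certificates -/
structure Pot (S : Sys I G Q P) (ω : PA I G Q P) (σ : St I U) (g : U) (c : Cer I G Q P) :
    Prop where
  valid : Valid S g c
  ok : ∀ ℓ ∈ lits c, Ok ω σ ℓ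
  closed : ∀ u r, (.inr ⟨u, r⟩, true) ∈ lits c → σ.kU u = none → u ∈ c.1

variable [Finite I] [Finite G] [Finite Q] [Finite U] [∀ u, Finite (P u)]

instance : Finite (Lit I G Q P) := by
  have : Finite (Σ u, P u) := inferInstance
  infer_instance

instance : Finite (Cer I G Q P) := by
  have : Finite (Lit I G Q P) := inferInstance
  have : Finite (Finset (Lit I G Q P)) := inferInstance
  infer_instance

/-- an injective numbering of the certificates -/
noncomputable def numc : Cer I G Q P → ℕ :=
  fun c => (Finite.equivFin (Cer I G Q P) c).val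

theorem numc_inj : Function.Injective (numc (I := I) (G := G) (Q := Q) (P := P)) :=
  fun _ _ h => (Finite.equivFin _).injective (Fin.ext h)

/-- the first element of a set of certificates -/
noncomputable def firstOf (A : Set (Cer I G Q P)) : Option (Cer I G Q P) :=
  if h : A.Nonempty then some (Function.argminOn numc A h) else none

theorem firstOf_none {A : Set (Cer I G Q P)} (h : firstOf A = none) (c : Cer I G Q P) : c ∉ A := by
  unfold firstOf at h
  split_ifs at h with h1
  exact fun hc => h1 ⟨c, hc⟩

theorem firstOf_empty {A : Set (Cer I G Q P)} (h : ∀ c, c ∉ A) : firstOf A = none := by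
  unfold firstOf
  rw [dif_neg]
  rintro ⟨c, hc⟩
  exact h c hc

theorem firstOf_mem {A : Set (Cer I G Q P)} {c : Cer I G Q P} (h : firstOf A = some c) :
    c ∈ A := by
  unfold firstOf at h
  split_ifs at h with h1
  rw [← Option.some.inj h]
  exact Function.argminOn_mem _ _ h1

theorem firstOf_sub {A A' : Set (Cer I G Q P)} {c : Cer I G Q P} (h : firstOf A = some c)
    (hs : A' ⊆ A) (hc : c ∈ A') : firstOf A' = some c := by
  have h' : A'.Nonempty := ⟨c, hc⟩
  unfold firstOf at h ⊢
  split_ifs at h with h1
  rw [dif_pos h']
  congr 1
  have h2 := Option.some.inj h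
  refine numc_inj (le_antisymm ?_ ?_)
  · exact Function.argminOn_le numc A' hc
  · rw [← h2]
    exact Function.argminOn_le numc A (hs (Function.argminOn_mem numc A' h'))

end ESY.PHI
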