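import Pool.Agent.Lib.MP_80aaf5_lc.PH.Lab

/-!
# Correctness of the procedure, and the number of its steps
-/

namespace ESY.PHI

open Classical

set_option linter.unusedSectionVars false

variable {I G Q U : Type} {P : U → Type}

/-- truth of a literal -/
def LT (ω : TA I G Q P) (v : I → Bool) (val : U → Prop) : Lit I G Q P → Prop
  | (.inl (x, q), a) => (ω.loc x = q ∧ (ω.sel x.1 = x.2 → v x.1 = true)) ↔ a = true
  | (.inr ⟨u, r⟩, a) => (ω.pad u = r ∧ val u) ↔ a = true

/-- `val` is the set of the true statements -/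
def IsVal (S : Sys I G Q P) (ω : TA I G Q P) (v : I → Bool) (val : U → Prop) : Prop :=
  ∀ u, val u ↔ ∃ τ ∈ S.terms u, ∀ ℓ ∈ τ, LT ω v val ℓ

/-- the statement of a positive literal -/
def pst : Lit I G Q P → Finset U
  | (.inr ⟨u, _⟩, true) => {u}
  | _ => ∅

theorem mem_pst {ℓ : Lit I G Q P} {u : U} : u ∈ pst ℓ ↔ ∃ r, ℓ = (.inr ⟨u, r⟩, true) := by
  rcases ℓ with ⟨⟨x, q⟩ | ⟨u', r⟩, _ | _⟩
  · simp [pst]
  · simp [pst]
  · simp [pst]
  · simp only [pst, Finset.mem_singleton, Prod.mk.injEq, Sum.inr.injEq, and_true]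
    constructor
    · rintro rfl
      exact ⟨r, rfl⟩
    · rintro ⟨r', h⟩
      exact (congrArg Sigma.fst h).symm

/-- the bound for the certificates -/
def SzOk (S : Sys I G Q P) (sz : U → ℕ) : Prop :=
  (∀ u, ∀ τ ∈ S.terms u, 1 + τ.card + ∑ u' ∈ τ.biUnion pst, sz u' ≤ sz u) ∧ ∀ u, sz u ≤ S.T

/-- the knowledge is correct -/
def Inv (S : Sys I G Q P) (ω : TA I G Q P) (σ : St I U) : Prop :=
  ∀ v val, (∀ i b, σ.kI i = some b → v i = b) → IsVal S ω v val →
    ∀ u b, σ.kU u = some b → (val u ↔ b = true)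

variable {S : Sys I G Q P}

/-- true statements have potential certificates -/
theorem complete (hS : RkOk S) {sz : U → ℕ} (hsz : SzOk S sz) {ω : TA I G Q P} {σ : St I U}
    {v : I → Bool} {val : U → Prop} (hv : ∀ i b, σ.kI i = some b → v i = b)
    (hval : IsVal S ω v val) (hk : ∀ u b, σ.kU u = some b → (val u ↔ b = true)) {g : U}
    (hg : val g) : ∃ c, Pot S (pa ω) σ g c := by
  have h1 : ∀ u, ∃ τ : Finset (Lit I G Q P), val u → τ ∈ S.terms u ∧ ∀ ℓ ∈ τ, LT ω v val ℓ := by
    intro u
    by_cases h : val u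
    · obtain ⟨τ, h2, h3⟩ := (hval u).1 h
      exact ⟨τ, fun _ => ⟨h2, h3⟩⟩
    · exact ⟨∅, fun h' => absurd h' h⟩
  choose ch hch using h1
  have key : ∀ (n : ℕ) (u : U), S.rk u = n → val u → ∃ B : Finset U, u ∈ B ∧
      (∀ b ∈ B, val b ∧ S.rk b ≤ S.rk u) ∧ (∀ b ∈ B, (ch b).biUnion pst ⊆ B) ∧
      B.card + (B.biUnion ch).card ≤ sz u := by
    intro n
    induction n using Nat.strong_induction_on with
    | _ n ih =>
      intro u hn hu
      obtain ⟨ht, hl⟩ := hch u hu
      have h2 : ∀ u' : U, ∃ B : Finset U, u' ∈ (ch u).biUnion pst → (u' ∈ B ∧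
          (∀ b ∈ B, val b ∧ S.rk b ≤ S.rk u') ∧ (∀ b ∈ B, (ch b).biUnion pst ⊆ B) ∧
          B.card + (B.biUnion ch).card ≤ sz u') ∧ S.rk u' < S.rk u := by
        intro u'
        by_cases h : u' ∈ (ch u).biUnion pst
        · obtain ⟨ℓ, h3, h4⟩ := Finset.mem_biUnion.1 h
          obtain ⟨r, rfl⟩ := mem_pst.1 h4
          have h5 := hS u _ ht u' r true h3
          obtain ⟨B, hB⟩ := ih (S.rk u') (by omega) u' rfl (((hl _ h3).2 rfl).2)
          exact ⟨B, fun _ => ⟨hB, h5⟩⟩
        · exact ⟨∅, fun h' => absurd h' h⟩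
      choose Bf hBf using h2
      refine ⟨insert u (((ch u).biUnion pst).biUnion Bf), Finset.mem_insert_self _ _, ?_, ?_, ?_⟩
      · intro b hb
        rcases Finset.mem_insert.1 hb with rfl | hb
        · exact ⟨hu, le_rfl⟩
        · obtain ⟨u', h3, h4⟩ := Finset.mem_biUnion.1 hb
          obtain ⟨⟨-, h5, -⟩, h6⟩ := hBf u' h3
          exact ⟨(h5 b h4).1, (h5 b h4).2.trans h6.le⟩
      · intro b hb
        rcases Finset.mem_insert.1 hb with rfl | hb
        · intro u' hu'
          exact Finset.mem_insert_of_mem (Finset.mem_biUnion.2 ⟨u', hu', (hBf u' hu').1.1⟩)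
        · obtain ⟨u', h3, h4⟩ := Finset.mem_biUnion.1 hb
          intro u'' hu''
          exact Finset.mem_insert_of_mem (Finset.mem_biUnion.2
            ⟨u', h3, (hBf u' h3).1.2.2.1 b h4 hu''⟩)
      · have h3 := hsz.1 u _ ht
        have h4 : (insert u (((ch u).biUnion pst).biUnion Bf)).card ≤
            1 + ∑ u' ∈ (ch u).biUnion pst, (Bf u').card := by
          refine (Finset.card_insert_le _ _).trans ?_
          have := Finset.card_biUnion_le (s := (ch u).biUnion pst) (t := Bf)
          omega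
        have h5 : ((insert u (((ch u).biUnion pst).biUnion Bf)).biUnion ch).card ≤
            (ch u).card + ∑ u' ∈ (ch u).biUnion pst, ((Bf u').biUnion ch).card := by
          rw [Finset.biUnion_insert, Finset.biUnion_biUnion]
          refine (Finset.card_union_le _ _).trans ?_
          have := Finset.card_biUnion_le (s := (ch u).biUnion pst)
            (t := fun u' => (Bf u').biUnion ch)
          omega
        have h6 : ∑ u' ∈ (ch u).biUnion pst, ((Bf u').card + ((Bf u').biUnion ch).card) ≤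
            ∑ u' ∈ (ch u).biUnion pst, sz u' :=
          Finset.sum_le_sum fun u' hu' => (hBf u' hu').1.2.2.2
        rw [Finset.sum_add_distrib] at h6
        omega
  obtain ⟨B, h2, h3, h4, h5⟩ := key _ g rfl hg
  have hlt : ∀ ℓ ∈ B.biUnion ch, LT ω v val ℓ := by
    intro ℓ hℓ
    obtain ⟨b, h6, h7⟩ := Finset.mem_biUnion.1 hℓ
    exact (hch b (h3 b h6).1).2 ℓ h7
  refine ⟨(B, ch), ⟨h2, fun b hb => (hch b (h3 b hb).1).1, fun b hb => (h3 b hb).2, ?_,
    h5.trans (hsz.2 g)⟩, ?_, ?_⟩
  · rintro β ⟨h6, h7⟩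
    have h8 := hlt _ h6
    have h9 := hlt _ h7
    rcases β with ⟨x, q⟩ | ⟨u, r⟩
    · exact absurd (h9.1 (h8.2 rfl)) (by decide)
    · exact absurd (h9.1 (h8.2 rfl)) (by decide)
  · intro ℓ hℓ
    have h6 := hlt ℓ hℓ
    rcases ℓ with ⟨⟨x, q⟩ | ⟨u, r⟩, _ | _⟩
    · show ¬ _ ∨ _
      have h7 : ¬ (ω.loc x = q ∧ (ω.sel x.1 = x.2 → v x.1 = true)) := fun h => by
        exact absurd (h6.1 h) (by decide)
      by_cases h8 : ω.loc x = q
      · right
        have h9 : ¬ (ω.sel x.1 = x.2 → v x.1 = true) := fun h => h7 ⟨h8, h⟩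
        rw [Classical.not_imp] at h9
        refine ⟨pa_sel.2 h9.1, fun h => h9.2 (hv _ _ h)⟩
      · exact Or.inl fun h => h8 (pa_loc.1 h)
    · obtain ⟨h7, h8⟩ := h6.2 rfl
      refine ⟨pa_loc.2 h7, fun h9 h10 => ?_⟩
      have := h8 (pa_sel.1 h9)
      rw [hv _ _ h10] at this
      exact absurd this (by decide)
    · show ¬ _ ∨ _
      by_cases h8 : ω.pad u = r
      · right
        intro h9
        have h10 := (hk u true h9).2 rfl
        exact absurd (h6.1 ⟨h8, h10⟩) (by decide)
      · exact Or.inl fun h => h8 (pa_pad.1 h)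
    · obtain ⟨h7, h8⟩ := h6.2 rfl
      refine ⟨pa_pad.2 h7, fun h9 => ?_⟩
      exact absurd ((hk u false h9).1 h8) (by decide)
  · intro u r hℓ _
    obtain ⟨b, h6, h7⟩ := Finset.mem_biUnion.1 hℓ
    exact h4 b h6 (Finset.mem_biUnion.2 ⟨_, h7, mem_pst.2 ⟨r, rfl⟩⟩)

/-- certificates without events are correct -/
theorem verified (hS : RkOk S) {ω : TA I G Q P} {σ : St I U}
    {v : I → Bool} {val : U → Prop} (hv : ∀ i b, σ.kI i = some b → v i = b)
    (hval : IsVal S ω v val) (hk : ∀ u b, σ.kU u = some b → (val u ↔ b = true)) {g : U}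
    {c : Cer I G Q P} (hc : Pot S (pa ω) σ g c) (he : ∀ ℓ ∈ lits c, ¬ Ev (pa ω) σ ℓ) :
    ∀ b ∈ c.1, val b := by
  have key : ∀ (n : ℕ) (b : U), S.rk b = n → b ∈ c.1 → val b := by
    intro n
    induction n using Nat.strong_induction_on with
    | _ n ih =>
      intro b hn hb
      refine (hval b).2 ⟨c.2 b, hc.valid.term b hb, fun ℓ hℓ => ?_⟩
      have hℓ' : ℓ ∈ lits c := Finset.mem_biUnion.2 ⟨b, hb, hℓ⟩
      have h1 := hc.ok ℓ hℓ'
      have h2 := he ℓ hℓ'
      rcases ℓ with ⟨⟨x, q⟩ | ⟨u, r⟩, _ | _⟩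
      · change ¬ _ ∨ _ at h1
        change ¬ (_ ∧ _ ∧ _) at h2
        refine ⟨fun h3 => ?_, fun h3 => absurd h3 (by decide)⟩
        exfalso
        rcases h1 with h4 | ⟨h4, h5⟩
        · exact h4 (pa_loc.2 h3.1)
        · have h6 : σ.kI x.1 ≠ none := fun h6 => h2 ⟨pa_loc.2 h3.1, h4, h6⟩
          have h7 := h3.2 (pa_sel.1 h4)
          rcases h8 : σ.kI x.1 with _ | _ | _
          · exact h6 h8
          · rw [hv _ _ h8] at h7
            exact absurd h7 (by decide)
          · exact h5 h8
      · change _ ∧ _ at h1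
        change ¬ (_ ∧ _ ∧ _) at h2
        refine ⟨fun _ => rfl, fun _ => ⟨pa_loc.1 h1.1, fun h3 => ?_⟩⟩
        have h4 := h1.2 (pa_sel.2 h3)
        rcases h8 : σ.kI x.1 with _ | _ | _
        · exact absurd ⟨h1.1, pa_sel.2 h3, h8⟩ h2
        · exact absurd h8 h4
        · exact hv _ _ h8
      · change ¬ _ ∨ _ at h1
        change ¬ (_ ∧ _) at h2
        refine ⟨fun h3 => ?_, fun h3 => absurd h3 (by decide)⟩
        exfalso
        rcases h1 with h4 | h4
        · exact h4 (pa_pad.2 h3.1)
        · rcases h8 : σ.kU u with _ | _ | _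
          · exact h2 ⟨pa_pad.2 h3.1, h8⟩
          · exact absurd ((hk u false h8).1 h3.2) (by decide)
          · exact h4 h8
      · change _ ∧ _ at h1
        refine ⟨fun _ => rfl, fun _ => ⟨pa_pad.1 h1.1, ?_⟩⟩
        rcases h8 : σ.kU u with _ | _ | _
        · have h3 := hS b _ (hc.valid.term b hb) u r true hℓ
          exact ih (S.rk u) (by omega) u rfl (hc.closed u r hℓ' h8)
        · exact absurd h8 h1.2
        · exact (hk u true h8).2 rfl
  exact fun b hb => key _ b rfl hb

variable [Finite I] [Finite G] [Finite Q] [Finite U] [∀ u, Finite (P u)]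

/-- known values of the variables are kept -/
theorem stp_kI_some {ω : TA I G Q P} {v : I → Bool} {σ : St I U} {i : I} {b : Bool}
    (h : σ.kI i = some b) : (stp S ω v σ).kI i = some b := by
  unfold stp
  split_ifs with h1
  · cases hc : cur S (pa ω) σ with
    | none => exact h
    | some c =>
      simp only [upd]
      split_ifs with h2
      · exact h
      · simp only
        split_ifs with h3
        · obtain ⟨ℓ, h4, g, q, a, rfl⟩ := h3
          obtain ⟨-, -, -, h5⟩ := mem_sev.1 h4
          have h6 : σ.kI i = none := h5.2.2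
          rw [h] at h6
          exact absurd h6 (by simp)
        · exact h
  · exact h

theorem stp_inv (hS : RkOk S) {sz : U → ℕ} (hsz : SzOk S sz) {ω : TA I G Q P} {v : I → Bool}
    {σ : St I U} (h : Inv S ω σ) : Inv S ω (stp S ω v σ) := by
  intro v' val hv hval
  have hv0 : ∀ i b, σ.kI i = some b → v' i = b := fun i b hb => hv i b (stp_kI_some hb)
  have hk := h v' val hv0 hval
  intro u b hu
  unfold stp at hu
  split_ifs at hu with h1
  · cases hc : cur S (pa ω) σ with
    | none =>
      rw [hc] at hu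
      simp only [upd] at hu
      by_cases h2 : u = pick S σ.goals h1
      · subst h2
        rw [Function.update_self] at hu
        obtain rfl := Option.some.inj hu
        constructor
        · intro h3
          obtain ⟨c, h4⟩ := complete hS hsz hv0 hval hk h3
          exfalso
          unfold cur at hc
          rw [dif_pos h1] at hc
          exact firstOf_none hc c h4
        · intro h3
          exact absurd h3 (by decide)
      · rw [Function.update_of_ne h2] at hu
        exact hk u b hu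
    | some c =>
      rw [hc] at hu
      simp only [upd] at hu
      split_ifs at hu with h2
      · simp only at hu
        split_ifs at hu with h3
        · obtain rfl := Option.some.inj hu
          refine ⟨fun _ => rfl, fun _ => ?_⟩
          obtain ⟨hg, hp⟩ := cur_pot hc
          refine verified hS hv0 hval hk hp (fun ℓ hℓ he => ?_) u h3.1
          have : ℓ ∈ sev S (pa ω) σ := mem_sev.2 ⟨c, hc, hℓ, he⟩
          rw [h2] at this
          simp at this
        · exact hk u b hu
      · exact hk u b hu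
  · exact hk u b hu

end ESY.PHI
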