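import Pool.Agent.Lib.MP_80aaf5_lc.PH.Hier

/-!
# One stage of the construction
-/

namespace ESY.PHI

open ESY ESY.Conv Classical

set_option linter.unusedSectionVars false

/-- the codes that matter in the stage -/
abbrev UU (n l : ℕ) : Type := {u : List Bool // n < u.length ∧ u.length ≤ l ∧ ∃ v, u = code v}

/-- their pads -/
abbrev PU {n l : ℕ} (u : UU n l) : Type := Fin (2 * u.1.length) → Bool

/-- the blocks -/
abbrev II (n k : ℕ) : Type := Lam n (k + 1)
/-- the positions in a block -/
abbrev GG (n k : ℕ) : Type := Fin (4 ^ (k + 1) * n) → Bool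
/-- the locations -/
abbrev QQ (n k : ℕ) : Type := Fin (2 * 4 ^ (k + 1) * n) → Bool

/-- the leaves -/
abbrev LL (n k : ℕ) : Type := (II n k × GG n k) × QQ n k

/-- the leaf given by a list of strings -/
def lf (n k : ℕ) (ws : List (List Bool)) : LL n k := leaf n (k + 2) ws

/-- the bits -/
abbrev BB (n k l : ℕ) : Type := Bit (II n k) (GG n k) (QQ n k) (fun u : UU n l => PU u)

/-- the input of the stage -/
def x0 (n : ℕ) : List Bool := List.replicate n false

theorem x0_length (n : ℕ) : (x0 n).length = n := by simp [x0]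

/-- the data of the stage -/
noncomputable def dz (d0 : List Bool → Dat) (n k l : ℕ) (z : LL n k → Bool)
    (pads : (u : UU n l) → PU u) : List Bool → Dat := fun s =>
  ⟨if h : ∃ ws : List (List Bool), ws.length = 2 * (k + 2) ∧ s = nest (x0 n) ws then
      !(z (lf n k h.choose)) else (d0 s).b,
    if h : n < s.length ∧ s.length ≤ l ∧ ∃ v, s = code v then
      (fun i => if hi : i < 2 * s.length then pads ⟨s, h⟩ ⟨i, hi⟩ else false) else (d0 s).y⟩

variable {X : Oracle} {d0 : List Bool → Dat} {n k l : ℕ}

theorem dz_leaf (z : LL n k → Bool) (pads : (u : UU n l) → PU u)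
    {ws : List (List Bool)} (h : ws.length = 2 * (k + 2)) :
    (dz d0 n k l z pads (nest (x0 n) ws)).b = !(z (lf n k ws)) := by
  have hx : ∃ ws' : List (List Bool), ws'.length = 2 * (k + 2) ∧
      nest (x0 n) ws = nest (x0 n) ws' := ⟨ws, h, rfl⟩
  have h1 : hx.choose = ws :=
    (nest_inj (x0 n) _ _ (h.trans hx.choose_spec.1.symm) hx.choose_spec.2).symm
  show (if h : _ then _ else _) = _
  rw [dif_pos hx, h1]

theorem dz_b_neg (z : LL n k → Bool) (pads : (u : UU n l) → PU u) {s : List Bool}
    (h : ¬ ∃ ws : List (List Bool), ws.length = 2 * (k + 2) ∧ s = nest (x0 n) ws) :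
    (dz d0 n k l z pads s).b = (d0 s).b := by
  show (if h : _ then _ else _) = _
  rw [dif_neg h]

theorem dz_y_neg (z : LL n k → Bool) (pads : (u : UU n l) → PU u) {s : List Bool}
    (h : ¬ (n < s.length ∧ s.length ≤ l ∧ ∃ v, s = code v)) :
    (dz d0 n k l z pads s).y = (d0 s).y := by
  show (if h : _ then _ else _) = _
  rw [dif_neg h]

theorem pd_dz (z : LL n k → Bool) (pads : (u : UU n l) → PU u) (u : UU n l) :
    pd (dz d0 n k l z pads) u.1 = true :: false :: List.ofFn (pads u) := by
  unfold pd pbits
  congr 2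
  refine congrArg _ (funext fun i => ?_)
  show (if h : _ then _ else _ : ℕ → Bool) i = _
  rw [dif_pos u.2]
  simp

theorem pd_dz_neg (z : LL n k → Bool) (pads : (u : UU n l) → PU u) {s : List Bool}
    (h : ¬ (n < s.length ∧ s.length ≤ l ∧ ∃ v, s = code v)) :
    pd (dz d0 n k l z pads) s = pd d0 s := by
  unfold pd
  rw [dz_y_neg z pads h]

theorem not_leaf_short {s : List Bool} (h : s.length ≤ n) :
    ¬ ∃ ws : List (List Bool), ws.length = 2 * (k + 2) ∧ s = nest (x0 n) ws := by
  rintro ⟨ws, h1, rfl⟩
  have h2 : ws ≠ [] := by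
    rintro rfl
    simp at h1
  have h3 := (nest_length (x0 n) ws).2 h2
  rw [x0_length] at h3
  omega

theorem dz_agr (z : LL n k → Bool) (pads : (u : UU n l) → PU u) :
    Agr (n + 1) d0 (dz d0 n k l z pads) := by
  intro s hs
  have h1 := dz_b_neg (d0 := d0) z pads (not_leaf_short (k := k) (show s.length ≤ n by omega))
  have h2 := dz_y_neg (d0 := d0) (k := k) z pads (s := s) (fun h => by omega)
  cases h3 : dz d0 n k l z pads s with
  | mk b y =>
    rw [h3] at h1 h2
    cases h4 : d0 s with
    | mk b' y' =>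
      rw [h4] at h1 h2
      simp only at h1 h2
      rw [h1, h2]

/-! ### the roles of the strings -/

/-- the code string of a position -/
def cstr (y : Σ u : UU n l, PU u) : List Bool :=
  true :: false :: true :: app (true :: false :: List.ofFn y.2) (false :: y.1.1)

theorem cstr_inj {y y' : Σ u : UU n l, PU u} (h : cstr y = cstr y') : y = y' := by
  unfold cstr at h
  simp only [List.cons.injEq, true_and] at h
  obtain ⟨h3, h4⟩ := app_inj' h
  obtain ⟨u, p⟩ := y
  obtain ⟨u', p'⟩ := y'
  obtain rfl : u = u' := Subtype.ext h4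
  simp only [List.cons.injEq, true_and] at h3
  rw [List.ofFn_injective h3]

/-- the role of a string: its bit, if it depends on the parameters of the stage -/
noncomputable def role (n k l : ℕ) (r : List Bool) : Option (BB n k l) :=
  if h : ∃ ws : List (List Bool), ws.length = 2 * (k + 2) ∧
      r = true :: false :: false :: nest (x0 n) ws then some (.inl (lf n k h.choose))
  else if h : ∃ y : (Σ u : UU n l, PU u), r = cstr y then some (.inr h.choose)
  else none

theorem role_leaf {ws : List (List Bool)} (h : ws.length = 2 * (k + 2)) :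
    role n k l (true :: false :: false :: nest (x0 n) ws) = some (.inl (lf n k ws)) := by
  have hx : ∃ ws' : List (List Bool), ws'.length = 2 * (k + 2) ∧
      true :: false :: false :: nest (x0 n) ws = true :: false :: false :: nest (x0 n) ws' :=
    ⟨ws, h, rfl⟩
  have h1 : hx.choose = ws :=
    (nest_inj (x0 n) _ _ (h.trans hx.choose_spec.1.symm) (by
      have := hx.choose_spec.2
      simpa using this)).symm
  unfold role
  rw [dif_pos hx, h1]

theorem role_code (y : Σ u : UU n l, PU u) : role n k l (cstr y) = some (.inr y) := by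
  have hn : ¬ ∃ ws : List (List Bool), ws.length = 2 * (k + 2) ∧
      cstr y = true :: false :: false :: nest (x0 n) ws := by
    rintro ⟨ws, -, h⟩
    simp [cstr] at h
  have hx : ∃ y' : (Σ u : UU n l, PU u), cstr y = cstr y' := ⟨y, rfl⟩
  have h1 : hx.choose = y := (cstr_inj hx.choose_spec).symm
  unfold role
  rw [dif_neg hn, dif_pos hx, h1]

theorem role_spec {r : List Bool} {y : Σ u : UU n l, PU u} (h : role n k l r = some (.inr y)) :
    r = cstr y := by
  unfold role at h
  by_cases h1 : ∃ ws : List (List Bool), ws.length = 2 * (k + 2) ∧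
      r = true :: false :: false :: nest (x0 n) ws
  · rw [dif_pos h1] at h
    cases h
  rw [dif_neg h1] at h
  by_cases h2 : ∃ y : (Σ u : UU n l, PU u), r = cstr y
  · rw [dif_pos h2] at h
    have h3 := Sum.inr.inj (Option.some.inj h)
    rw [← h3]
    exact h2.choose_spec
  · rw [dif_neg h2] at h
    cases h

theorem role_len {r : List Bool} {y : Σ u : UU n l, PU u} (h : role n k l r = some (.inr y)) :
    y.1.1.length < r.length := by
  rw [role_spec h]
  simp only [cstr, List.length_cons, app_len]
  omega

/-- the sign of a bit -/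
def sg : BB n k l → Bool → Bool
  | .inl _, a => !a
  | .inr _, a => a

/-- the oracle given by the bits -/
noncomputable def Ob (X : Oracle) (d0 : List Bool → Dat) (β : BB n k l → Bool) : Oracle := fun r =>
  match role n k l r with
  | some b => sg b (β b)
  | none => Or X d0 r

/-- the bits of the oracle of the stage -/
noncomputable def bt (X : Oracle) (d0 : List Bool → Dat) (z : LL n k → Bool)
    (pads : (u : UU n l) → PU u) : BB n k l → Bool
  | .inl b => z b
  | .inr y => decide (pads y.1 = y.2 ∧ K X (dz d0 n k l z pads) y.1.1)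

theorem Or_eq (z : LL n k → Bool) (pads : (u : UU n l) → PU u) {r : List Bool}
    (hr : r.length ≤ l) : Or X (dz d0 n k l z pads) r = Ob X d0 (bt X d0 z pads) r := by
  unfold Ob
  by_cases h1 : ∃ ws : List (List Bool), ws.length = 2 * (k + 2) ∧
      r = true :: false :: false :: nest (x0 n) ws
  · obtain ⟨ws, h2, rfl⟩ := h1
    rw [role_leaf h2, Or_free, dz_leaf z pads h2]
    rfl
  by_cases h2 : ∃ y : (Σ u : UU n l, PU u), r = cstr y
  · obtain ⟨y, rfl⟩ := h2
    rw [role_code y]
    obtain ⟨u, p⟩ := y
    obtain ⟨v, hv⟩ := u.2.2.2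
    show _ = decide _
    rw [Bool.eq_iff_iff, decide_eq_true_iff]
    simp only
    have h3 := Or_code (X := X) (dz d0 n k l z pads) (true :: false :: List.ofFn p) v
    rw [← hv] at h3
    refine h3.trans ?_
    rw [pd_dz]
    simp only [List.cons.injEq, true_and]
    refine and_congr_left fun _ => ?_
    constructor
    · intro h; exact (List.ofFn_injective h).symm
    · intro h; rw [h]
  have h3 : role n k l r = none := by
    unfold role
    rw [dif_neg h1, dif_neg h2]
  rw [h3]
  match r, hr, h1, h2 with
  | [], _, _, _ => rfl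
  | false :: s, _, _, _ => rfl
  | [true], _, _, _ => rfl
  | true :: true :: s, _, _, _ => rfl
  | [true, false], _, _, _ => rfl
  | true :: false :: false :: s, _, h1, _ =>
    rw [Or_free]
    show _ = (d0 s).b
    refine dz_b_neg z pads ?_
    rintro ⟨ws, h4, rfl⟩
    exact h1 ⟨ws, h4, rfl⟩
  | true :: false :: true :: s, hr, _, h2 =>
    show _ = Or X d0 _
    rw [Bool.eq_iff_iff, Or_code', Or_code']
    refine exists_congr fun v => ?_
    have hall := (agr_all (X := X) (dz_agr (d0 := d0) z pads)).1 (code v)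
    constructor
    · rintro ⟨h4, h5⟩
      have h6 : ¬ (n < (code v).length ∧ (code v).length ≤ l ∧ ∃ v', code v = code v') := by
        intro h6
        refine h2 ⟨⟨⟨code v, h6⟩, pads ⟨code v, h6⟩⟩, ?_⟩
        rw [h4]
        have := pd_dz (d0 := d0) z pads ⟨code v, h6⟩
        simp only at this
        rw [this]
        rfl
      have h7 : (code v).length ≤ l := by
        rw [h4] at hr
        simp only [List.length_cons, app_len] at hr
        omega
      have h8 : (code v).length ≤ n := by
        by_contra h8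
        exact h6 ⟨by omega, h7, v, rfl⟩
      rw [pd_dz_neg z pads h6] at h4
      exact ⟨h4, (hall (by omega)).1 h5⟩
    · rintro ⟨h4, h5⟩
      have h6 : ¬ (n < (code v).length ∧ (code v).length ≤ l ∧ ∃ v', code v = code v') := by
        intro h6
        refine h2 ⟨⟨⟨code v, h6⟩, fun i => (d0 (code v)).y i⟩, ?_⟩
        rw [h4]
        rfl
      have h7 : (code v).length ≤ l := by
        rw [h4] at hr
        simp only [List.length_cons, app_len] at hr
        omega
      have h8 : (code v).length ≤ n := by
        by_contra h8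
        exact h6 ⟨by omega, h7, v, rfl⟩
      refine ⟨?_, (hall (by omega)).2 h5⟩
      rw [pd_dz_neg z pads h6]
      exact h4

/-! ### the terms -/

/-- the literals of the value of a string -/
noncomputable def rl (β : BB n k l → Bool) (r : List Bool) :
    Finset (Lit (II n k) (GG n k) (QQ n k) (fun u : UU n l => PU u)) :=
  match role n k l r with
  | some b => {(b, β b)}
  | none => ∅

/-- the literals of a list of strings -/
noncomputable def tset (β : BB n k l → Bool) (A : List (List Bool)) :
    Finset (Lit (II n k) (GG n k) (QQ n k) (fun u : UU n l => PU u)) :=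
  A.toFinset.biUnion (rl β)

theorem mem_tset {β : BB n k l → Bool} {A : List (List Bool)}
    {ℓ : Lit (II n k) (GG n k) (QQ n k) (fun u : UU n l => PU u)} :
    ℓ ∈ tset β A ↔ ∃ r ∈ A, role n k l r = some ℓ.1 ∧ ℓ.2 = β ℓ.1 := by
  unfold tset
  rw [Finset.mem_biUnion]
  refine exists_congr fun r => ?_
  rw [List.mem_toFinset]
  refine and_congr_right fun _ => ?_
  unfold rl
  cases h : role n k l r with
  | none => simp
  | some b =>
    rw [Finset.mem_singleton]
    constructor
    · rintro rfl
      exact ⟨rfl, rfl⟩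
    · rintro ⟨h1, h2⟩
      rw [Option.some.inj h1, ← h2]

/-- the system of the stage -/
noncomputable def sys (X : Oracle) (d0 : List Bool → Dat) (n k l : ℕ) :
    Sys (II n k) (GG n k) (QQ n k) (fun u : UU n l => PU u) where
  terms u := {τ | ∃ (v : List Bool) (β : BB n k l → Bool) (w : List Bool), u.1 = code v ∧
    w.length ≤ tm v ∧ AcceptsIn (Ob X d0 β) (mc (par v).1).1 (par v).2 w (tm v) ∧
    τ = tset β (qv (Ob X d0 β) v w)}
  rk u := u.1.length
  T := l

theorem sys_rk : RkOk (sys X d0 n k l) := by
  rintro u τ ⟨v, β, w, hu, hw, -, rfl⟩ u' r a h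
  obtain ⟨s, h1, h2, -⟩ := mem_tset.1 h
  have h3 := role_len h2
  have h4 := qv_lt _ v w hw s h1
  rw [← hu] at h4
  exact h3.trans h4

theorem sum_biUnion_le' {α β : Type} [DecidableEq β] (s : Finset α) (t : α → Finset β) (f : β → ℕ) :
    ∑ x ∈ s.biUnion t, f x ≤ ∑ i ∈ s, ∑ x ∈ t i, f x := by
  induction s using Finset.induction_on with
  | empty => simp
  | insert a s ha ih =>
    rw [Finset.biUnion_insert, Finset.sum_insert ha]
    have := Finset.sum_union_inter (s₁ := t a) (s₂ := s.biUnion t) (f := f)
    omega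

theorem biUnion_inst {α β : Type} (i1 i2 : DecidableEq β) (s : Finset α) (t : α → Finset β) :
    @Finset.biUnion _ _ i1 s t = @Finset.biUnion _ _ i2 s t := by
  rw [Subsingleton.elim i1 i2]

theorem sys_sz : SzOk (sys X d0 n k l) (fun u => u.1.length) := by
  refine ⟨?_, fun u => u.2.2.1⟩
  rintro u τ ⟨v, β, w, hu, hw, -, rfl⟩
  set A := qv (Ob X d0 β) v w with hA
  have h1 : (tset β A).card ≤ ∑ r ∈ A.toFinset, (rl β r).card := Finset.card_biUnion_le
  have h2 : ∑ u' ∈ (tset β A).biUnion pst, u'.1.length ≤
      ∑ r ∈ A.toFinset, ∑ u' ∈ (rl β r).biUnion pst, u'.1.length := by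
    unfold tset
    rw [Finset.biUnion_biUnion]
    exact sum_biUnion_le' _ _ _
  have h3 : ∀ r ∈ A.toFinset, (rl β r).card + ∑ u' ∈ (rl β r).biUnion pst, u'.1.length ≤
      (par v).2.length + 2 * tm v + 1 := by
    intro r hr
    have h4 := qv_len _ v w hw r (List.mem_toFinset.1 hr)
    refine le_trans ?_ h4
    unfold rl
    cases h5 : role n k l r with
    | none => simp
    | some b =>
      simp only [Finset.card_singleton, Finset.singleton_biUnion]
      rcases b with b | y
      · have : pst ((Sum.inl b : BB n k l), β (Sum.inl b)) = ∅ := by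
          cases β (Sum.inl b) <;> rfl
        rw [this]
        simp
      · have h6 := role_len h5
        cases β (Sum.inr y)
        · have : pst ((Sum.inr y : BB n k l), false) = ∅ := rfl
          rw [this]
          simp
        · have : pst ((Sum.inr y : BB n k l), true) = {y.1} := rfl
          rw [this, Finset.sum_singleton]
          omega
  have h4 := Finset.sum_le_card_nsmul _ _ _ h3
  rw [Finset.sum_add_distrib, smul_eq_mul] at h4
  have h5 : A.toFinset.card ≤ tm v := (List.toFinset_card_le A).trans (qv_card _ v w)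
  have h6 := Nat.mul_le_mul_right ((par v).2.length + 2 * tm v + 1) h5
  have h7 := J_bound v
  have h8 := code_len v
  rw [← hu] at h8
  have h9 : 1 + (tset β A).card + ∑ u' ∈ (tset β A).biUnion pst, u'.1.length ≤ u.1.length := by
    omega
  have e9 := biUnion_inst (fun a b => propDecidable (a = b)) (fun a b =>
    Subtype.instDecidableEq a b) (tset β A) (pst (P := fun u : UU n l => PU u))
  rw [← e9] at h9
  exact h9

theorem asked_congr' {O O' : Oracle} {M : Machine} : ∀ (t : ℕ) (c : Cfg M),
    (∀ s ∈ asked O M t c, O' s = O s) → asked O' M t c = asked O M t c := by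
  intro t
  induction t with
  | zero => intro c _; rfl
  | succ t ih =>
    intro c h
    simp only [asked]
    have h1 := step_congr (O := O) (O' := O') (c := c) fun s hs => h s (List.mem_append_left _ hs)
    rw [h1, ih _ fun s hs => h s (List.mem_append_right _ hs)]

theorem acc_congr {O O' : Oracle} {M : Machine} {x w : List Bool} {t : ℕ}
    (h : ∀ s ∈ asked O M t (start M x w), O' s = O s) :
    AcceptsIn O' M x w t ↔ AcceptsIn O M x w t := by
  unfold AcceptsIn
  rw [run_congr t _ h]

/-- the set of true statements -/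
noncomputable def vl (X : Oracle) (d0 : List Bool → Dat)
    (ω : TA (II n k) (GG n k) (QQ n k) (fun u : UU n l => PU u)) (v : II n k → Bool) :
    UU n l → Prop := fun u => K X (dz d0 n k l (zr ω.loc ω.sel v) ω.pad) u.1

theorem LT_iff (ω : TA (II n k) (GG n k) (QQ n k) (fun u : UU n l => PU u)) (v : II n k → Bool)
    (b : BB n k l) (a : Bool) :
    LT ω v (vl X d0 ω v) (b, a) ↔ bt X d0 (zr ω.loc ω.sel v) ω.pad b = a := by
  rcases b with b | ⟨u, r⟩
  · obtain ⟨x, q⟩ := b
    exact (iff_congr (zr_iff ω.loc ω.sel v (x, q)).symm Iff.rfl).trans Bool.eq_iff_iff.symm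
  · exact (iff_congr decide_eq_true_iff.symm Iff.rfl).trans Bool.eq_iff_iff.symm

theorem isVal (ω : TA (II n k) (GG n k) (QQ n k) (fun u : UU n l => PU u)) (v : II n k → Bool) :
    IsVal (sys X d0 n k l) ω v (vl X d0 ω v) := by
  intro u
  obtain ⟨s, hs⟩ := u.2.2.2
  have hlen : s = s := rfl
  set z := zr ω.loc ω.sel v with hz
  constructor
  · intro h
    have h1 : K X (dz d0 n k l z ω.pad) (code s) := by
      rw [← hs]
      exact h
    rw [K_code] at h1
    obtain ⟨w, hw, ha⟩ := h1
    have h2 : ∀ r ∈ asked (Or X (dz d0 n k l z ω.pad)) (mc (par s).1).1 (tm s)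
        (start (mc (par s).1).1 (par s).2 w), Ob X d0 (bt X d0 z ω.pad) r =
          Or X (dz d0 n k l z ω.pad) r := by
      intro r hr
      refine (Or_eq z ω.pad ?_).symm
      have h3 := qv_lt _ s w hw r hr
      rw [← hs] at h3
      exact h3.le.trans u.2.2.1
    refine ⟨_, ⟨s, bt X d0 z ω.pad, w, hs, hw, (acc_congr h2).2 ha, rfl⟩, fun ℓ hℓ => ?_⟩
    obtain ⟨r, -, -, h4⟩ := mem_tset.1 hℓ
    obtain ⟨b, a⟩ := ℓ
    rw [LT_iff]
    exact h4.symm
  · rintro ⟨τ, ⟨s', β, w, hs', hw, ha, rfl⟩, hl⟩
    have h1 : ∀ r ∈ asked (Ob X d0 β) (mc (par s').1).1 (tm s')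
        (start (mc (par s').1).1 (par s').2 w), Or X (dz d0 n k l z ω.pad) r = Ob X d0 β r := by
      intro r hr
      have h3 := qv_lt _ s' w hw r hr
      rw [← hs'] at h3
      rw [Or_eq z ω.pad (h3.le.trans u.2.2.1)]
      unfold Ob
      cases h4 : role n k l r with
      | none => rfl
      | some b =>
        have h5 : (b, β b) ∈ tset β (qv (Ob X d0 β) s' w) := mem_tset.2 ⟨r, hr, h4, rfl⟩
        have h6 := hl _ h5
        rw [LT_iff] at h6
        simp only
        rw [← h6]
    show K X (dz d0 n k l z ω.pad) u.1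
    rw [hs', K_code]
    exact ⟨w, hw, (acc_congr h1).2 ha⟩

/-- the certificates of a computation -/
theorem crt_run (ω : TA (II n k) (GG n k) (QQ n k) (fun u : UU n l => PU u)) {s : ℕ} (hs : 1 ≤ s)
    (hω : ∀ u v, ∃ D : Finset (II n k), D.card < s ∧ ∀ v', (∀ i ∈ D, v' i = v i) →
      ∀ val val', IsVal (sys X d0 n k l) ω v val → IsVal (sys X d0 n k l) ω v' val' →
        (val u ↔ val' u))
    (M : Machine) (x : List Bool) (t : ℕ) (hl : x.length + t ≤ l) :
    Crt (t * s) fun v => AcceptsIn (Or X (dz d0 n k l (zr ω.loc ω.sel v) ω.pad)) M x [] t := by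
  intro v
  set A := asked (Or X (dz d0 n k l (zr ω.loc ω.sel v) ω.pad)) M t (start M x []) with hA
  have hD : ∀ r : List Bool, ∃ D : Finset (II n k), D.card ≤ s ∧ ∀ v', (∀ i ∈ D, v' i = v i) →
      r.length ≤ l → Or X (dz d0 n k l (zr ω.loc ω.sel v') ω.pad) r =
        Or X (dz d0 n k l (zr ω.loc ω.sel v) ω.pad) r := by
    intro r
    cases h1 : role n k l r with
    | none =>
      refine ⟨∅, by simp, fun v' _ hr => ?_⟩
      rw [Or_eq _ _ hr, Or_eq _ _ hr]
      unfold Ob
      rw [h1]
    | some b =>
      rcases b with b | y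
      · refine ⟨{b.1.1}, by simpa using hs, fun v' hv' hr => ?_⟩
        rw [Or_eq _ _ hr, Or_eq _ _ hr]
        unfold Ob
        rw [h1]
        show (!(zr ω.loc ω.sel v' b)) = !(zr ω.loc ω.sel v b)
        congr 1
        rw [Bool.eq_iff_iff, zr_iff, zr_iff, hv' _ (Finset.mem_singleton_self _)]
      · obtain ⟨D, hD1, hD2⟩ := hω y.1 v
        refine ⟨D, hD1.le, fun v' hv' hr => ?_⟩
        rw [Or_eq _ _ hr, Or_eq _ _ hr]
        unfold Ob
        rw [h1]
        show decide _ = decide _
        have h2 := hD2 v' hv' _ _ (isVal ω v) (isVal ω v')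
        congr 1
        refine propext (and_congr_right fun _ => ?_)
        exact h2.symm
  choose D hD1 hD2 using hD
  refine ⟨A.toFinset.biUnion D, ?_, fun v' hv' => ?_⟩
  · refine (Finset.card_biUnion_le_card_mul _ _ s fun r _ => hD1 r).trans ?_
    exact Nat.mul_le_mul_right _ ((List.toFinset_card_le A).trans (asked_card _ _ _ _))
  · refine (acc_congr fun r hr => ?_).symm
    refine hD2 r v' (fun i hi => hv' i ?_) ?_
    · exact Finset.mem_biUnion.2 ⟨r, List.mem_toFinset.2 hr, hi⟩
    · exact (asked_len _ M _ _ _ (start_len M x [] _ le_rfl (Nat.zero_le _)) r hr).trans hl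

end ESY.PHI
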